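import Pool.Agent.Helper5.BH.Pairs

/-!
Project BH: existence of plans.
-/

namespace Pool.Agent.Helper5.BH

open Pool.Agent.Helper21.BX (S lead rest msk fre sh isSh idx lev isMsk isFre isCod inI Mac num tbl vio
  allB sel lead_sh rest_sh idx_sh lev_sh lev_msk lev_fre isSh_sh isSh_msk isSh_fre isMsk_msk isMsk_fre
  isMsk_sh isFre_fre isFre_msk isFre_sh isSh_iff mem_allB)
open Pool.Agent.Helper21.BY
open Pool.Agent.Helper5.BG (resp vio_iff Es mem_Es Es_card resp_congr InI sh_inj fre_inj sh_ne_fre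
  sh_ne_msk fre_ne_msk inI_sh keyable eq_msk isSh_of_cod tf map_ofFn getD_mem)

/-- The type of a string `u` without a plan for a single target, with the target `t` of the pair. -/
def Ty (G : Par) (u : S) (ty : Fin 3) (b : Bool) (t : S) : Prop :=
  (ty = 0 ∧ t = yy G u ∧ ∀ c, InI G.n G.τ c → sh (fi b) c ∉ Es G.M (yy G u)) ∨
  (ty = 1 ∧ ∃ c c' g ψ, t = sh (fi b) c ∧ Cond G u b c c' g ψ ∧
    ∀ d, InI G.n G.τ d → sh (fi (!b)) d ∉ Es G.M (sh (fi b) c)) ∨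
  (ty = 2 ∧ ∃ c c' g ψ, t = sh (fi b) c ∧ Cond G u b c c' g ψ ∧
    (∀ d, InI G.n G.τ d → sh (fi b) d ∉ Es G.M (sh (fi b) c)) ∧
    yy G u ∉ Es G.M (sh (fi b) c))

theorem exists_ty {G : Par} (H : Hyp G) (hno : ¬ (Stat G ∨ (Kin G 1 ∧ Kin G 2))) {u : S}
    (hu : u.length = G.n ^ 2) : ∃ ty b t, Ty G u ty b t := by
  by_cases h0 : ∀ c, InI G.n G.τ c → sh 0 c ∉ Es G.M (yy G u)
  · exact ⟨0, false, yy G u, Or.inl ⟨rfl, rfl, h0⟩⟩
  by_cases h1 : ∀ c, InI G.n G.τ c → sh 1 c ∉ Es G.M (yy G u)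
  · exact ⟨0, true, yy G u, Or.inl ⟨rfl, rfl, h1⟩⟩
  push Not at h0 h1
  obtain ⟨c0, hc0, m0⟩ := h0
  obtain ⟨c1, hc1, m1⟩ := h1
  rcases dich H hu hc0 hc1 m0 m1 with h | h | ⟨j, c, c', g, ψ, C⟩
  · exact absurd (Or.inl h) hno
  · exact absurd (Or.inr h) hno
  · rcases dich2 H hu C hno with h | h
    · exact ⟨1, j, sh (fi j) c, Or.inr (Or.inl ⟨rfl, c, c', g, ψ, rfl, C, h⟩)⟩
    · exact ⟨2, j, sh (fi j) c, Or.inr (Or.inr ⟨rfl, c, c', g, ψ, rfl, C, h.1, h.2⟩)⟩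

/-- Two strings of the same class give a static plan. -/
theorem stat_pair {G : Par} (H : Hyp G) {u u2 : S} (hu : u.length = G.n ^ 2)
    (hu2 : u2.length = G.n ^ 2) (hne : u ≠ u2) {ty : Fin 3} {b : Bool} {t t2 : S}
    (h : Ty G u ty b t) (h2 : Ty G u2 ty b t2) (hs : G.M.side t = G.M.side t2)
    (htf : tf 3 G.M t = tf 3 G.M t2)
    (hcl : ∀ m : Fin 3, cl3 G t ((G.M.qs t).getD m []) = cl3 G t2 ((G.M.qs t2).getD m []))
    (h5 : yy G u2 ∉ Es G.M t) (h6 : yy G u ∉ Es G.M t2) : Stat G := by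
  rcases h with ⟨e, rfl, h⟩ | ⟨e, c, c', g, ψ, rfl, C, h⟩ | ⟨e, c, c', g, ψ, rfl, C, h, h3⟩
  · rcases h2 with ⟨e2, rfl, h2⟩ | ⟨e2, -⟩ | ⟨e2, -⟩
    · exact pair_y H hu hu2 hne b hs htf hcl h h2
    · rw [e] at e2
      exact absurd e2 (by decide)
    · rw [e] at e2
      exact absurd e2 (by decide)
  · rcases h2 with ⟨e2, -⟩ | ⟨e2, c2, c2', g2, ψ2, rfl, C2, h2⟩ | ⟨e2, -⟩
    · rw [e] at e2
      exact absurd e2 (by decide)
    · by_cases hcc : c = c2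
      · subst hcc
        exact pair_same H hu hu2 hne C C2
      · exact pair_t1 H hu hu2 C C2 hcc hs htf hcl h h2
    · rw [e] at e2
      exact absurd e2 (by decide)
  · rcases h2 with ⟨e2, -⟩ | ⟨e2, -⟩ | ⟨e2, c2, c2', g2, ψ2, rfl, C2, h2, h4⟩
    · rw [e] at e2
      exact absurd e2 (by decide)
    · rw [e] at e2
      exact absurd e2 (by decide)
    · by_cases hcc : c = c2
      · subst hcc
        exact pair_same H hu hu2 hne C C2
      · exact pair_t2 H hu hu2 hne C C2 hs htf hcl h h2 h3 h4 h5 h6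

/-- Existence of plans. -/
theorem exists_plan : ExPlan := by
  classical
  obtain ⟨n₀, hn₀⟩ := exists_class3 7 (Fin 3 × Bool × Bool)
  refine ⟨n₀, fun M n ν τ a i low hn hi hn2 hν hτ hq hlev => ?_⟩
  set G : Par := ⟨M, n, ν, τ, a, i, low⟩ with hG
  have H : Hyp G := ⟨hi, hn2, hν, hτ, hq, hlev⟩
  by_contra hno
  have hno' : ¬ (Stat G ∨ (Kin G 1 ∧ Kin G 2)) := hno
  have hd : ∀ u : S, ∃ (ty : Fin 3) (b : Bool) (t : S), u.length = n ^ 2 → Ty G u ty b t := by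
    intro u
    by_cases hu : u.length = n ^ 2
    · obtain ⟨ty, b, t, h⟩ := exists_ty H hno' hu
      exact ⟨ty, b, t, fun _ => h⟩
    · exact ⟨0, false, [], fun h => absurd h hu⟩
  choose ty b t ht using hd
  obtain ⟨F, hFc, hFl, s, hs⟩ := hn₀ n hn
    (fun u => ((ty u, b u, M.side (t u)), tf 3 M (t u), fun m => cl3 G (t u) ((M.qs (t u)).getD m [])))
    (fun u _ m q h => cl3_low h)
  obtain ⟨u, hu, u2, hu2, hne, h1, h2⟩ := exists_good_pair (F := F) (fun u => Es M (t u)) (yy G)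
    (fun u hu v hv h => yy_inj (hFl u hu) (hFl v hv) h) (fun u _ => Es_card (hq _)) hFc
  have e := (hs u hu).trans (hs u2 hu2).symm
  simp only [Prod.mk.injEq] at e
  obtain ⟨⟨e1, e2, e3⟩, e4, e5⟩ := e
  have lu := hFl u hu
  have lu2 := hFl u2 hu2
  have T2 := ht u2 lu2
  rw [← e1, ← e2] at T2
  exact hno' (Or.inl (stat_pair H lu lu2 hne (ht u lu) T2 e3 e4 (fun m => congrFun e5 m) h1 h2))

end Pool.Agent.Helper5.BH
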