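import Pool.Agent.Helper21.BY.Gd
import Pool.Agent.Helper5.BG.Two

/-!
Project BH (MP_4a5e7e_lc, Q2 for `k = 3`, block of project BY): existence of plans, basic facts.
-/

namespace Pool.Agent.Helper5.BH

open Pool.Agent.Helper21.BX (S lead rest msk fre sh isSh idx lev isMsk isFre isCod inI Mac num tbl vio
  allB sel lead_sh rest_sh idx_sh lev_sh lev_msk lev_fre isSh_sh isSh_msk isSh_fre isMsk_msk isMsk_fre
  isMsk_sh isFre_fre isFre_msk isFre_sh isSh_iff mem_allB)
open Pool.Agent.Helper21.BY
open Pool.Agent.Helper5.BG (resp vio_iff Es mem_Es Es_card resp_congr InI sh_inj fre_inj sh_ne_fre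
  sh_ne_msk fre_ne_msk inI_sh keyable eq_msk isSh_of_cod)

/-- The parameters of the game. -/
structure Par where
  /-- the machine -/
  M : Mac
  /-- the attack interval is `[n, τ]` -/
  n : ℕ
  /-- bound for the scales -/
  ν : ℕ
  /-- the attack interval is `[n, τ]` -/
  τ : ℕ
  /-- the service levels are `[a, n)` -/
  a : ℕ
  /-- the scale is `2 ^ i` -/
  i : ℕ
  /-- the set below level `a` -/
  low : S → Bool

/-- The hypotheses. -/
structure Hyp (G : Par) : Prop where
  hi : G.i ≤ G.n
  hn2 : G.n ^ 2 ≤ 2 ^ G.i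
  hν : 2 ^ G.i ≤ G.ν
  hτ : 2 ^ G.i ≤ G.τ
  hq : ∀ q, (G.M.qs q).length = 3
  hlev : ∀ u : S, u.length = 2 ^ G.i → ∀ q ∈ G.M.qs (fre u),
    lev q ≤ G.τ ∧ ∀ q' ∈ G.M.qs q, lev q' ≤ G.τ

/-- The target of the string `u` of length `n ^ 2`. -/
def yy (G : Par) (u : S) : S := fre (u ++ List.replicate (2 ^ G.i - G.n ^ 2) false)

/-- There is a static plan. -/
def Stat (G : Par) : Prop :=
  ∃ w : S, w.length = WW G.n ∧
    (val G.M 0 G.n G.ν G.τ G.a false (fun _ => false) w = true ∨
      val G.M 0 G.n G.ν G.τ G.a true G.low w = true)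

/-- There is a plan of kind `κ` (used for `κ = 1` and `κ = 2`). -/
def Kin (G : Par) (κ : ℕ) : Prop :=
  ∃ w : S, w.length = WW G.n ∧ pS G.n G.ν w = 2 ^ G.i ∧
    val G.M κ G.n G.ν G.τ G.a false (fun _ => false) w = true

/-! ### hosts -/

/-- Constant host. -/
def hc (v : Bool) : Hst := if v then ([], [], []) else ([false], [false], [])

/-- The host `K c`. -/
def hK (c : S) : Hst := (true :: c, [false], [])

/-- The host `p`. -/
def hP : Hst := ([false, true], [false], [])

/-- The host `K c and K d`. -/
def hAnd (c d : S) : Hst := (true :: c, [false], true :: d)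

/-- The host `K c or K d`. -/
def hOr (c d : S) : Hst := (true :: c, true :: d, [])

/-- The host `K c and p`. -/
def hKp (c : S) : Hst := (true :: c, [false], [false, true])

/-- The host `(K c or K d) and p`. -/
def hOrp (c d : S) : Hst := (true :: c, true :: d, [false, true])

section hosts

variable {X : S → Bool} {p : Bool}

@[simp] theorem hv_hc (v : Bool) : hv X p (hc v) = v := by
  cases v <;> rfl

@[simp] theorem hv_hK (c : S) : hv X p (hK c) = X (true :: c) := by
  simp [hv, hK, sv]

@[simp] theorem hv_hP : hv X p hP = p := by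
  simp [hv, hP, sv]

@[simp] theorem hv_hAnd (c d : S) : hv X p (hAnd c d) = (X (true :: c) && X (true :: d)) := by
  simp [hv, hAnd, sv]

@[simp] theorem hv_hOr (c d : S) : hv X p (hOr c d) = (X (true :: c) || X (true :: d)) := by
  simp [hv, hOr, sv]

@[simp] theorem hv_hKp (c : S) : hv X p (hKp c) = (X (true :: c) && p) := by
  simp [hv, hKp, sv]

@[simp] theorem hv_hOrp (c d : S) :
    hv X p (hOrp c d) = ((X (true :: c) || X (true :: d)) && p) := by
  simp [hv, hOrp, sv]

end hosts

/-- The host of `q` in a list of assignments (the first one counts; `0` if there is none). -/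
def look : List (S × Hst) → S → Hst
  | [], _ => hc false
  | (r, h) :: l, q => if q = r then h else look l q

theorem look_nil (q : S) : look [] q = hc false := rfl

theorem look_cons (r : S) (h : Hst) (l : List (S × Hst)) (q : S) :
    look ((r, h) :: l) q = if q = r then h else look l q := rfl

theorem look_append {l l' : List (S × Hst)} {q : S} (h : ∀ e ∈ l, e.1 ≠ q) :
    look (l ++ l') q = look l' q := by
  induction l with
  | nil => rfl
  | cons e l ih =>
    obtain ⟨r, x⟩ := e
    rw [List.cons_append, look_cons, if_neg (fun h' => h (r, x) List.mem_cons_self h'.symm)]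
    exact ih fun e he => h e (List.mem_cons_of_mem _ he)

theorem look_append_left {l l' : List (S × Hst)} {q : S} (h : ∀ e ∈ l', e.1 ≠ q) :
    look (l ++ l') q = look l q := by
  induction l with
  | nil =>
    have := look_append (l := l') (l' := []) h
    rw [List.append_nil] at this
    exact this
  | cons e l ih =>
    obtain ⟨r, x⟩ := e
    rw [List.cons_append, look_cons, look_cons, ih]

/-- `ev` with assignments in place of the list of hosts. -/
def evF (n τ a : ℕ) (mode : Bool) (low : S → Bool) (key : S) (b : Bool) (L : List (S × Hst))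
    (p : Bool) (X : S → Bool) (q : S) : Bool :=
  if isCod 3 q then
    (if inI n τ q then
      (if isMsk q then b && decide (lev q = n)
      else if isSh 3 q && decide (idx q = fi b) then X (true :: rest q)
      else hv X p (look L q))
    else if lev q < n then
      (if mode then
        (if lev q < a then low q else isSh 3 q && decide (idx q = 0) && X (false :: q))
      else decide (q = key) || X (false :: q))
    else X (false :: q))
  else false

/-- The characteristic function of the set. -/
def ge (G : Par) (mode : Bool) (key : S) (b : Bool) (L : List (S × Hst)) (p : Bool)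
    (X : S → Bool) (q : S) : Bool :=
  evF G.n G.τ G.a mode G.low key b L p X q

/-! ### values -/

theorem fi_ne (b : Bool) : fi (!b) ≠ fi b := by
  cases b <;> decide

theorem fi_lt (b : Bool) : fi b + 1 < 3 := by
  cases b <;> decide

theorem eq_fi {i : ℕ} (h : i + 1 < 3) (b : Bool) : i = fi b ∨ i = fi (!b) := by
  have h' : i = 0 ∨ i = 1 := by omega
  cases b <;> simp [fi, h', or_comm]

section values

variable {G : Par} {mode : Bool} {key : S} {b : Bool} {L : List (S × Hst)} {p : Bool}
  {X : S → Bool}

theorem ge_msk (h : G.n ≤ G.τ) : ge G mode key b L p X (msk G.n) = b := by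
  have h1 : inI G.n G.τ (msk G.n) = true := by
    unfold inI
    rw [lev_msk]
    simpa using h
  unfold ge evF isCod
  rw [h1, isMsk_msk, lev_msk]
  simp

theorem ge_forced {c : S} (hc : InI G.n G.τ c) :
    ge G mode key b L p X (sh (fi b) c) = X (true :: c) := by
  have h1 : isSh 3 (sh (fi b) c) = true := by
    rw [isSh_sh]
    exact decide_eq_true (fi_lt b)
  have h2 : inI G.n G.τ (sh (fi b) c) = true := inI_sh.2 hc
  unfold ge evF isCod
  rw [h1, h2, isMsk_sh, isFre_sh, idx_sh, rest_sh]
  simp

theorem ge_free {c : S} {j : Bool} (hj : j = !b) (hc : InI G.n G.τ c) :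
    ge G mode key b L p X (sh (fi j) c) = hv X p (look L (sh (fi j) c)) := by
  subst hj
  have h1 : isSh 3 (sh (fi (!b)) c) = true := by
    rw [isSh_sh]
    exact decide_eq_true (fi_lt _)
  have h2 : inI G.n G.τ (sh (fi (!b)) c) = true := inI_sh.2 hc
  have h3 : decide (fi (!b) = fi b) = false := decide_eq_false (fi_ne b)
  unfold ge evF isCod
  rw [h1, h2, isMsk_sh, isFre_sh, idx_sh, rest_sh, h3]
  simp

theorem ge_fre {v : S} (h : G.n ≤ v.length) (h' : v.length ≤ G.τ) :
    ge G mode key b L p X (fre v) = hv X p (look L (fre v)) := by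
  have h1 : inI G.n G.τ (fre v) = true := by
    unfold inI
    rw [lev_fre]
    simp [h, h']
  unfold ge evF isCod
  rw [h1, isMsk_fre, isFre_fre, isSh_fre]
  simp

/-- An extra string: neither the mask nor a share of the attack interval. -/
def Ext (G : Par) (x : S) : Prop :=
  lev x ≤ G.τ ∧ x ≠ msk G.n ∧ ¬ (isSh 3 x = true ∧ inI G.n G.τ x = true)

/-- The value of an extra string without host. -/
def kap (G : Par) (x : S) : Bool :=
  if isCod 3 x then
    (if inI G.n G.τ x then false else if lev x < G.a then G.low x else keyable 3 G.n G.a x)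
  else false

/-- As `BG.evQ_extra`. -/
theorem ge_extra {x : S} (hx : Ext G x) (hl : ∀ e ∈ L, e.1 ≠ x) :
    ge G (!keyable 3 G.n G.a x) x b L p X x = kap G x := by
  obtain ⟨hx1, hx2, hx3⟩ := hx
  have hlook : look L x = hc false := by
    have := look_append (l := L) (l' := []) hl
    rwa [List.append_nil] at this
  unfold ge evF kap
  by_cases hc : isCod 3 x = true
  · rw [if_pos hc, if_pos hc]
    by_cases hi : inI G.n G.τ x = true
    · rw [if_pos hi, if_pos hi]
      by_cases h1 : isMsk x = true
      · rw [if_pos h1]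
        have h2 : lev x ≠ G.n := by
          intro h3
          apply hx2
          rw [eq_msk h1, h3]
        simp [h2]
      · rw [if_neg h1]
        have h2 : isSh 3 x = false := by
          rw [← Bool.not_eq_true]
          exact fun h => hx3 ⟨h, hi⟩
        rw [h2, hlook, hv_hc]
        simp
    · rw [if_neg hi, if_neg hi]
      have hl : lev x < G.n := by
        by_contra h3
        apply hi
        unfold inI
        simp only [Bool.and_eq_true, decide_eq_true_eq]
        omega
      rw [if_pos hl]
      by_cases hk : keyable 3 G.n G.a x = true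
      · have hk' := hk
        unfold keyable at hk'
        simp only [Bool.and_eq_true, decide_eq_true_eq] at hk'
        rw [hk]
        simp only [Bool.not_true, Bool.false_eq_true, if_false, decide_true, Bool.true_or]
        rw [if_neg (by omega)]
      · rw [Bool.not_eq_true] at hk
        rw [hk]
        simp only [Bool.not_false, if_true]
        by_cases ha : lev x < G.a
        · rw [if_pos ha, if_pos ha]
        · rw [if_neg ha, if_neg ha]
          have h4 : (isSh 3 x && decide (idx x = 0)) = false := by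
            unfold keyable at hk
            have e1 : decide (G.a ≤ lev x) = true := decide_eq_true (by omega)
            have e2 : decide (lev x < G.n) = true := decide_eq_true hl
            rw [e1, e2, Bool.and_true, Bool.and_true] at hk
            exact hk
          rw [h4, Bool.false_and]
  · rw [if_neg hc, if_neg hc]

end values

/-! ### targets -/

section targets

variable {G : Par} {u v : S}

theorem Hyp.hnτ (H : Hyp G) : G.n ≤ G.τ := by
  have h1 := H.hn2
  have h2 := H.hτ
  have h3 : G.n ≤ G.n ^ 2 := Nat.le_self_pow (by norm_num) _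
  omega

theorem lev_yy (H : Hyp G) (hu : u.length = G.n ^ 2) : lev (yy G u) = 2 ^ G.i := by
  unfold yy
  rw [lev_fre, List.length_append, List.length_replicate, hu]
  have := H.hn2
  omega

theorem yy_inj (hu : u.length = G.n ^ 2) (hv : v.length = G.n ^ 2) (h : yy G u = yy G v) : u = v := by
  unfold yy at h
  have h1 := fre_inj h
  exact (List.append_inj h1 (hu.trans hv.symm)).1

theorem yy_ne_sh {i : ℕ} {c : S} : yy G u ≠ sh i c := fun h => sh_ne_fre h.symm

theorem yy_ne_msk {l : ℕ} : yy G u ≠ msk l := fre_ne_msk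

theorem ge_yy (H : Hyp G) (hu : u.length = G.n ^ 2) {mode : Bool} {key : S} {b : Bool}
    {L : List (S × Hst)} {p : Bool} {X : S → Bool} :
    ge G mode key b L p X (yy G u) = hv X p (look L (yy G u)) := by
  have h1 : (u ++ List.replicate (2 ^ G.i - G.n ^ 2) false).length = 2 ^ G.i := by
    have := lev_yy H hu
    unfold yy at this
    rwa [lev_fre] at this
  have h3 : G.n ≤ G.n ^ 2 := Nat.le_self_pow (by norm_num) _
  unfold yy
  refine ge_fre ?_ ?_
  · rw [h1]
    exact h3.trans H.hn2
  · rw [h1]
    exact H.hτ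

/-- The levels of the queries. -/
theorem lev_Es (H : Hyp G) (hu : u.length = G.n ^ 2) {q : S} (h : q ∈ Es G.M (yy G u)) :
    lev q ≤ G.τ := by
  have h1 : (u ++ List.replicate (2 ^ G.i - G.n ^ 2) false).length = 2 ^ G.i := by
    have := lev_yy H hu
    unfold yy at this
    rwa [lev_fre] at this
  exact (H.hlev _ h1 q (mem_Es.1 h).1).1

theorem lev_Es' (H : Hyp G) (hu : u.length = G.n ^ 2) {q t : S} (ht : t ∈ Es G.M (yy G u))
    (h : q ∈ Es G.M t) : lev q ≤ G.τ := by
  have h1 : (u ++ List.replicate (2 ^ G.i - G.n ^ 2) false).length = 2 ^ G.i := by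
    have := lev_yy H hu
    unfold yy at this
    rwa [lev_fre] at this
  exact (H.hlev _ h1 t (mem_Es.1 ht).1).2 q (mem_Es.1 h).1

theorem self_Es {M : Mac} {t : S} : t ∉ Es M t := fun h => (mem_Es.1 h).2 rfl

/-- A query of a query on the same side as a further query is not a query. -/
theorem Es_two {M : Mac} {y t q : S} (ht : t ∈ Es M y) (hq : q ∈ Es M y) : q ∉ Es M t := by
  intro h
  have h1 := (mem_Es.1 ht).2
  have h2 := (mem_Es.1 hq).2
  have h3 := (mem_Es.1 h).2
  revert h1 h2 h3
  cases M.side y <;> cases M.side t <;> cases M.side q <;> simp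

end targets

/-- The relevant strings. -/
def rl (G : Par) (u u2 z z2 : S) : List S :=
  [yy G u, yy G u2, z, z2] ++ [yy G u, yy G u2, z, z2].flatMap G.M.qs

theorem mem_rl {G : Par} {u u2 z z2 t q : S} (ht : t ∈ [yy G u, yy G u2, z, z2])
    (hq : q ∈ Es G.M t) : q ∈ rl G u u2 z z2 :=
  List.mem_append_right _ (List.mem_flatMap.2 ⟨t, ht, (mem_Es.1 hq).1⟩)

/-- The host `h` of the string `q` is admissible, for kind `κ` and the instances `r1`, `r2`. -/
def Hok (G : Par) (κ : ℕ) (r1 r2 : S) (R : List S) (q : S) (h : Hst) : Prop :=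
  ∀ s ∈ [h.1, h.2.1, h.2.2], s = [] ∨ s = [false] ∨
    (s = [false, true] ∧ (κ = 1 → 2 ^ G.i ≤ lev q) ∧
      (κ = 2 → G.n ≤ lev q ∧ (rest r1).length ≤ lev q ∧ (rest r2).length ≤ lev q)) ∨
    ∃ r ∈ R, s = true :: rest r ∧ (rest r).length ≤ lev q

theorem Hok_hc {G : Par} {κ : ℕ} {r1 r2 : S} {R : List S} {q : S} (v : Bool) :
    Hok G κ r1 r2 R q (hc v) := by
  intro s hs
  cases v
  · simp only [hc, List.mem_cons, List.not_mem_nil, or_false, if_false, Bool.false_eq_true] at hs
    rcases hs with rfl | rfl | rfl
    · exact Or.inr (Or.inl rfl)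
    · exact Or.inr (Or.inl rfl)
    · exact Or.inl rfl
  · simp only [hc, List.mem_cons, List.not_mem_nil, or_false, if_true] at hs
    rcases hs with rfl | rfl | rfl <;> exact Or.inl rfl

theorem Hok_hK {G : Par} {κ : ℕ} {r1 r2 : S} {R : List S} {q c r : S} (hr : r ∈ R)
    (hc : rest r = c) (hl : c.length ≤ lev q) : Hok G κ r1 r2 R q (hK c) := by
  intro s hs
  simp only [hK, List.mem_cons, List.not_mem_nil, or_false] at hs
  rcases hs with rfl | rfl | rfl
  · exact Or.inr (Or.inr (Or.inr ⟨r, hr, by rw [hc], by rw [hc]; exact hl⟩))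
  · exact Or.inr (Or.inl rfl)
  · exact Or.inl rfl

/-- The instance that an index in the plan stands for. -/
theorem Hok_of {G : Par} {κ : ℕ} {r1 r2 : S} {R : List S} {q : S} {h : Hst}
    (h1 : ∀ s ∈ [h.1, h.2.1, h.2.2], s = [] ∨ s = [false] ∨
      (s = [false, true] ∧ (κ = 1 → 2 ^ G.i ≤ lev q) ∧
        (κ = 2 → G.n ≤ lev q ∧ (rest r1).length ≤ lev q ∧ (rest r2).length ≤ lev q)) ∨
      ∃ (i : ℕ) (c : S), s = true :: c ∧ sh i c ∈ R ∧ c.length ≤ lev q) :
    Hok G κ r1 r2 R q h := by
  intro s hs
  rcases h1 s hs with h | h | h | ⟨i, c, h2, h3, h4⟩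
  · exact Or.inl h
  · exact Or.inr (Or.inl h)
  · exact Or.inr (Or.inr (Or.inl h))
  · exact Or.inr (Or.inr (Or.inr ⟨sh i c, h3, by rw [rest_sh]; exact h2, by rw [rest_sh]; exact h4⟩))

end Pool.Agent.Helper5.BH
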