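import Pool.Agent.Helper5.BH.Basic

/-!
Project BH: finite functions, and the answer as a function of the values at three strings.
-/

namespace Pool.Agent.Helper5.BH

open Pool.Agent.Helper21.BX (S lead rest msk fre sh isSh idx lev isMsk isFre isCod inI Mac num tbl vio
  allB sel lead_sh rest_sh idx_sh lev_sh lev_msk lev_fre isSh_sh isSh_msk isSh_fre isMsk_msk isMsk_fre
  isMsk_sh isFre_fre isFre_msk isFre_sh isSh_iff mem_allB)
open Pool.Agent.Helper21.BY
open Pool.Agent.Helper5.BG (resp vio_iff Es mem_Es Es_card resp_congr InI sh_inj fre_inj sh_ne_fre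
  sh_ne_msk fre_ne_msk inI_sh keyable eq_msk isSh_of_cod)

/-- The answer at `t`, as a function of the values at three strings. -/
def g3 (M : Mac) (t s0 s1 s2 : S) (v0 v1 v2 : Bool) : Bool :=
  resp M (fun q => if q = s0 then v0 else if q = s1 then v1 else if q = s2 then v2 else false) t

theorem g3_eq {M : Mac} {t s0 s1 s2 : S} (h : ∀ q ∈ Es M t, q = s0 ∨ q = s1 ∨ q = s2)
    (e : S → Bool) : resp M e t = g3 M t s0 s1 s2 (e s0) (e s1) (e s2) := by
  unfold g3
  refine resp_congr fun q hq => ?_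
  by_cases h0 : q = s0
  · subst h0
    rw [if_pos rfl]
  · rw [if_neg h0]
    by_cases h1 : q = s1
    · subst h1
      rw [if_pos rfl]
    · rw [if_neg h1]
      by_cases h2 : q = s2
      · subst h2
        rw [if_pos rfl]
      · rcases h q hq with h' | h' | h'
        · exact absurd h' h0
        · exact absurd h' h1
        · exact absurd h' h2

/-- With two distinct members there is at most one further one. -/
theorem exists_third {M : Mac} {t a b : S} (hq : (M.qs t).length = 3) (ha : a ∈ Es M t)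
    (hb : b ∈ Es M t) (hab : a ≠ b) :
    ∃ x, (x = [] ∨ (x ∈ Es M t ∧ x ≠ a ∧ x ≠ b)) ∧ ∀ q ∈ Es M t, q = a ∨ q = b ∨ q = x := by
  classical
  have hc := Es_card (M := M) (t := t) hq
  have h1 : ({a, b} : Finset S) ⊆ Es M t := by
    intro q hq'
    rcases Finset.mem_insert.1 hq' with h | h
    · rw [h]
      exact ha
    · rw [Finset.mem_singleton.1 h]
      exact hb
  have h2 : (Es M t \ {a, b}).card ≤ 1 := by
    rw [Finset.card_sdiff_of_subset h1, Finset.card_pair hab]
    omega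
  rcases Finset.eq_empty_or_nonempty (Es M t \ {a, b}) with he | ⟨x, hx⟩
  · refine ⟨[], Or.inl rfl, fun q hq' => ?_⟩
    by_contra hno
    rw [not_or, not_or] at hno
    have : q ∈ Es M t \ {a, b} := by
      rw [Finset.mem_sdiff, Finset.mem_insert, Finset.mem_singleton, not_or]
      exact ⟨hq', hno.1, hno.2.1⟩
    rw [he] at this
    exact absurd this (Finset.notMem_empty _)
  · obtain ⟨hx1, hx2⟩ := Finset.mem_sdiff.1 hx
    rw [Finset.mem_insert, Finset.mem_singleton, not_or] at hx2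
    refine ⟨x, Or.inr ⟨hx1, hx2.1, hx2.2⟩, fun q hq' => ?_⟩
    by_cases hqa : q = a
    · exact Or.inl hqa
    by_cases hqb : q = b
    · exact Or.inr (Or.inl hqb)
    right
    right
    refine Finset.card_le_one.1 h2 q ?_ x hx
    rw [Finset.mem_sdiff, Finset.mem_insert, Finset.mem_singleton, not_or]
    exact ⟨hq', hqa, hqb⟩

/-- Functions of two variables: constant in the first one, constant in the second one, or a sum. -/
theorem fin_two (g : Bool → Bool → Bool) :
    (∃ w, g false w = g true w) ∨ (∃ v, g v false = g v true) ∨ ∃ r, ∀ v w, g v w = (v ^^ w ^^ r) := by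
  revert g
  decide

theorem fin_three (g : Bool → Bool → Bool → Bool) :
    (∃ y1 y2, g false y1 y2 = g true y1 y2) ∨
      ∃ φ : Bool → Bool → Bool, ∀ x y1 y2, g x y1 y2 = (x ^^ φ y1 y2) := by
  by_cases h : ∃ y1 y2, g false y1 y2 = g true y1 y2
  · exact Or.inl h
  · right
    refine ⟨g false, fun x y1 y2 => ?_⟩
    have h1 : g false y1 y2 ≠ g true y1 y2 := fun h2 => h ⟨y1, y2, h2⟩
    cases x
    · simp
    · revert h1
      cases g false y1 y2 <;> cases g true y1 y2 <;> simp

/-- Functions of two variables. -/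
theorem fin_phi (φ : Bool → Bool → Bool) :
    (∃ r, ∀ y1 y2, φ y1 y2 = r) ∨ (∃ r, ∀ y1 y2, φ y1 y2 = (y1 ^^ r)) ∨
    (∃ r, ∀ y1 y2, φ y1 y2 = (y2 ^^ r)) ∨ (∃ r, ∀ y1 y2, φ y1 y2 = ((y1 && y2) ^^ r)) ∨
    (∃ r, ∀ y1 y2, φ y1 y2 = ((y1 || y2) ^^ r)) ∨
    (∃ r, ∀ y1 y2, φ y1 y2 = (((y1 || y2) && !(y1 && y2)) ^^ r)) ∨
    (∃ r, ∀ y1 y2, φ y1 y2 = ((y1 && !(y1 && y2)) ^^ r)) ∨
    (∃ r, ∀ y1 y2, φ y1 y2 = ((y2 && !(y1 && y2)) ^^ r)) := by
  revert φ
  decide

/-- A function of one variable. -/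
theorem fin_one (ψ : Bool → Bool) : (∃ r, ∀ v, ψ v = r) ∨ ∃ r, ∀ v, ψ v = (v ^^ r) := by
  revert ψ
  decide

theorem xor_of_ne {a b : Bool} (h : a ≠ b) : b = !a := by
  revert h
  cases a <;> cases b <;> simp

end Pool.Agent.Helper5.BH
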