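import Pool.Agent.Helper5.BH.Basic

/-!
Project BH: from the data of a plan to the string of the plan.
-/

namespace Pool.Agent.Helper5.BH

open Pool.Agent.Helper21.BX (S lead rest msk fre sh isSh idx lev isMsk isFre isCod inI Mac num tbl vio
  allB sel lead_sh rest_sh idx_sh lev_sh lev_msk lev_fre isSh_sh isSh_msk isSh_fre isMsk_msk isMsk_fre
  isMsk_sh isFre_fre isFre_msk isFre_sh isSh_iff mem_allB)
open Pool.Agent.Helper21.BY
open Pool.Agent.Helper5.BG (resp vio_iff Es mem_Es Es_card resp_congr InI sh_inj fre_inj sh_ne_fre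
  sh_ne_msk fre_ne_msk inI_sh keyable eq_msk isSh_of_cod)

/-- A symbol of an admissible host is `sym R j` for some `j < R.length + 3` (`List.getD` of a member). -/
theorem exists_sym {G : Par} {κ : ℕ} {r1 r2 : S} {R : List S} {q : S} {h : Hst}
    (hok : Hok G κ r1 r2 R q h) {s : S} (hs : s ∈ [h.1, h.2.1, h.2.2]) :
    ∃ j, j < R.length + 3 ∧ sym R j = s := by
  rcases hok s hs with rfl | rfl | ⟨rfl, _, _⟩ | ⟨r, hr, rfl, _⟩
  · exact ⟨1, by omega, rfl⟩
  · exact ⟨0, by omega, rfl⟩
  · exact ⟨2, by omega, rfl⟩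
  · obtain ⟨i, hi, hi'⟩ := List.mem_iff_getElem.1 hr
    refine ⟨i + 3, by omega, ?_⟩
    unfold sym
    rw [if_neg (by omega), if_neg (by omega), if_neg (by omega), Nat.add_sub_cancel,
      List.getD_eq_getElem _ _ hi, hi']

private theorem Re1_lead (i m : ℕ) :
    lead (List.replicate i true ++ List.replicate m false) = i := by
  induction i with
  | zero =>
    cases m with
    | zero => rfl
    | succ m => rfl
  | succ i ih =>
    rw [List.replicate_succ, List.cons_append, lead, ih]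

private theorem Re1_look {G : Par} {κ : ℕ} {r1 r2 : S} {R : List S} {L : List (S × Hst)}
    (hL : ∀ e ∈ L, Hok G κ r1 r2 R e.1 e.2) (q : S) : Hok G κ r1 r2 R q (look L q) := by
  induction L with
  | nil => exact Hok_hc _
  | cons e L ih =>
    obtain ⟨r, h⟩ := e
    rw [look_cons]
    by_cases hq : q = r
    · rw [if_pos hq, hq]
      exact hL (r, h) List.mem_cons_self
    · rw [if_neg hq]
      exact ih fun e he => hL e (List.mem_cons_of_mem _ he)

private theorem Re1_place {R : List S} {N : ℕ} (hR : R.length = N) {q : S} (hq : q ∈ R) :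
    ∃ j : Fin N, R.getD (j : ℕ) [] = q := by
  obtain ⟨i, hi, hi'⟩ := List.mem_iff_getElem.1 hq
  refine ⟨⟨i, by omega⟩, ?_⟩
  rw [List.getD_eq_getElem _ _ hi, hi']

/-- Proof. `R := rl G u u2 z z2` has length `16`. Let `w = u ++ (u2 ++ (List.replicate i true ++
(List.replicate (n - i) false ++ δ)))`, `δ` from `dec_surj` for the tuple `(b, j₁, j₂, j₃, j₄, j₅, f)` of the
places (`List.getElem_of_mem`, `List.getD_eq_getElem`) of `z`, `z2` among the queries, of `key`, `r1`, `r2` in `R`, and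
`f m` the numbers from `exists_sym` for the host `look L (R.getD m [])` (hypothesis `hL` for the strings with a host;
the others have the host `hc false`). `lead` of the part `(w.drop (2 * n ^ 2)).take n` is `i` (if `i = n` the part is
`List.replicate n true`, otherwise it is `i` times `true` and then `false`). -/
theorem exists_w {G : Par} (H : Hyp G) {u u2 z z2 : S} (hu : u.length = G.n ^ 2)
    (hu2 : u2.length = G.n ^ 2) (hz : z ∈ G.M.qs (yy G u)) (hz2 : z2 ∈ G.M.qs (yy G u2)) (b : Bool)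
    {key r1 r2 : S} (hkey : key ∈ rl G u u2 z z2) (hr1 : r1 ∈ rl G u u2 z z2)
    (hr2 : r2 ∈ rl G u u2 z z2) {κ : ℕ} {L : List (S × Hst)}
    (hL : ∀ e ∈ L, Hok G κ r1 r2 (rl G u u2 z z2) e.1 e.2) :
    ∃ w : S, w.length = WW G.n ∧ pS G.n G.ν w = 2 ^ G.i ∧ pB G.n w = b ∧
      tgt G.M G.n G.ν w = [yy G u, yy G u2, z, z2] ∧ rel G.M G.n G.ν w = rl G u u2 z z2 ∧
      pK G.M G.n G.ν w = key ∧ pR1 G.M G.n G.ν w = rest r1 ∧ pR2 G.M G.n G.ν w = rest r2 ∧
      pH G.M G.n G.ν w = (rl G u u2 z z2).map (fun q => (q, look L q)) := by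
  have hR : (rl G u u2 z z2).length = 16 := by
    unfold rl
    simp only [List.length_append, List.length_cons, List.length_nil,
      List.flatMap_cons, List.flatMap_nil, H.hq]
  obtain ⟨jz, hjz⟩ := Re1_place (H.hq _) hz
  obtain ⟨jz2, hjz2⟩ := Re1_place (H.hq _) hz2
  obtain ⟨jk, hjk⟩ := Re1_place hR hkey
  obtain ⟨j1, hj1⟩ := Re1_place hR hr1
  obtain ⟨j2, hj2⟩ := Re1_place hR hr2
  have hf : ∀ m : Fin 16, ∃ t : Fin 19 × Fin 19 × Fin 19,
      (sym (rl G u u2 z z2) t.1, sym (rl G u u2 z z2) t.2.1, sym (rl G u u2 z z2) t.2.2) =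
        look L ((rl G u u2 z z2).getD (m : ℕ) []) := by
    intro m
    have hok := Re1_look hL ((rl G u u2 z z2).getD (m : ℕ) [])
    obtain ⟨a1, h1, e1⟩ := exists_sym hok (s := (look L ((rl G u u2 z z2).getD (m : ℕ) [])).1)
      (by simp)
    obtain ⟨a2, h2, e2⟩ := exists_sym hok (s := (look L ((rl G u u2 z z2).getD (m : ℕ) [])).2.1)
      (by simp)
    obtain ⟨a3, h3, e3⟩ := exists_sym hok (s := (look L ((rl G u u2 z z2).getD (m : ℕ) [])).2.2)
      (by simp)
    rw [hR] at h1 h2 h3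
    refine ⟨(⟨a1, h1⟩, ⟨a2, h2⟩, ⟨a3, h3⟩), ?_⟩
    simp only [e1, e2, e3]
  choose f hf using hf
  obtain ⟨δ, hδ, hdec⟩ := dec_surj ((b, jz, jz2, jk, j1, j2, f) : Cst)
  set sc : S := List.replicate G.i true ++ List.replicate (G.n - G.i) false with hsc
  have hscl : sc.length = G.n := by
    rw [hsc, List.length_append, List.length_replicate, List.length_replicate]
    have := H.hi
    omega
  have e1 : (u ++ (u2 ++ (sc ++ δ))).take (G.n ^ 2) = u := List.take_left' hu
  have e2 : (u ++ (u2 ++ (sc ++ δ))).drop (G.n ^ 2) = u2 ++ (sc ++ δ) := List.drop_left' hu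
  have e3 : (u2 ++ (sc ++ δ)).take (G.n ^ 2) = u2 := List.take_left' hu2
  have e4 : (u2 ++ (sc ++ δ)).drop (G.n ^ 2) = sc ++ δ := List.drop_left' hu2
  have e5 : (u ++ (u2 ++ (sc ++ δ))).drop (2 * G.n ^ 2) = sc ++ δ := by
    rw [show 2 * G.n ^ 2 = G.n ^ 2 + G.n ^ 2 from by ring, ← List.drop_drop, e2, e4]
  have e6 : (sc ++ δ).take G.n = sc := List.take_left' hscl
  have e7 : (u ++ (u2 ++ (sc ++ δ))).drop (2 * G.n ^ 2 + G.n) = δ := by
    rw [← List.drop_drop, e5]
    exact List.drop_left' hscl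
  have e8 : δ.take CC = δ := by
    rw [← hδ, List.take_length]
  have hS : pS G.n G.ν (u ++ (u2 ++ (sc ++ δ))) = 2 ^ G.i := by
    unfold pS pw
    rw [e5, e6, hsc, Re1_lead, if_pos H.hν]
  have hC : pC G.n (u ++ (u2 ++ (sc ++ δ))) = (b, jz, jz2, jk, j1, j2, f) := by
    unfold pC
    rw [e7, e8, hdec]
  have hY : pY G.n G.ν (u ++ (u2 ++ (sc ++ δ))) = yy G u := by
    unfold pY yy
    rw [e1, hS]
  have hY2 : pY2 G.n G.ν (u ++ (u2 ++ (sc ++ δ))) = yy G u2 := by
    unfold pY2 yy
    rw [e2, e3, hS]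
  have hZ : pZ G.M G.n G.ν (u ++ (u2 ++ (sc ++ δ))) = z := by
    unfold pZ
    rw [hY, hC]
    exact hjz
  have hZ2 : pZ2 G.M G.n G.ν (u ++ (u2 ++ (sc ++ δ))) = z2 := by
    unfold pZ2
    rw [hY2, hC]
    exact hjz2
  have ht : tgt G.M G.n G.ν (u ++ (u2 ++ (sc ++ δ))) = [yy G u, yy G u2, z, z2] := by
    unfold tgt
    rw [hY, hY2, hZ, hZ2]
  have hr : rel G.M G.n G.ν (u ++ (u2 ++ (sc ++ δ))) = rl G u u2 z z2 := by
    unfold rel rl
    rw [ht]
  refine ⟨u ++ (u2 ++ (sc ++ δ)), ?_, hS, ?_, ht, hr, ?_, ?_, ?_, ?_⟩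
  · unfold WW
    simp only [List.length_append, hu, hu2, hscl, hδ]
    ring
  · unfold pB
    rw [hC]
  · unfold pK
    rw [hr, hC]
    exact hjk
  · unfold pR1
    rw [hr, hC]
    exact congrArg rest hj1
  · unfold pR2
    rw [hr, hC]
    exact congrArg rest hj2
  · unfold pH
    rw [hr, hC]
    refine List.ext_getElem ?_ ?_
    · rw [List.length_map, List.length_map, List.length_finRange, hR]
    · intro m h1 h2
      rw [List.length_map, List.length_finRange] at h1
      rw [List.length_map] at h2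
      rw [List.getElem_map, List.getElem_map, List.getElem_finRange]
      have h3 := hf ⟨m, h1⟩
      have h4 : (rl G u u2 z z2).getD m [] = (rl G u u2 z z2)[m] := List.getD_eq_getElem _ _ h2
      simp only [Fin.cast_mk] at h3 ⊢
      rw [h3, h4]

/-- The value of a relevant string. -/
theorem fv_map {X : S → Bool} {p : Bool} {R : List S} {h : S → Hst} {q : S} (hq : q ∈ R) :
    fv X p (R.map (fun q => (q, h q))) q = hv X p (h q) := by
  unfold fv
  rw [List.any_map]
  cases hb : hv X p (h q) with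
  | true =>
    rw [List.any_eq_true]
    refine ⟨q, hq, ?_⟩
    simp [hb]
  | false =>
    rw [List.any_eq_false]
    intro r _
    by_cases hrq : r = q
    · subst hrq
      simp [hb]
    · simp [hrq]

/-- The condition on the special bit. -/
def Cnd (κ : ℕ) (r1 r2 : S) (X : S → Bool) (p : Bool) : Prop :=
  if κ = 0 then p = false else if κ = 1 then p = X (true :: rest r1) else
    p = !(X (true :: rest r1) && X (true :: rest r2))

private theorem Re2_look (L : List (S × Hst)) (q : S) :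
    look L q = hc false ∨ ∃ e ∈ L, e.1 = q ∧ e.2 = look L q := by
  induction L with
  | nil => exact Or.inl rfl
  | cons e L ih =>
    obtain ⟨r, h⟩ := e
    rw [look_cons]
    by_cases hq : q = r
    · rw [if_pos hq]
      exact Or.inr ⟨(r, h), List.mem_cons_self, hq.symm, rfl⟩
    · rw [if_neg hq]
      rcases ih with h1 | ⟨e, h1, h2, h3⟩
      · exact Or.inl h1
      · exact Or.inr ⟨e, List.mem_cons_of_mem _ h1, h2, h3⟩

private theorem Re2_sok {G : Par} {κ : ℕ} {r1 r2 : S} {R : List S} {q : S} {h : Hst} {w : S}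
    (hS : pS G.n G.ν w = 2 ^ G.i) (h1 : pR1 G.M G.n G.ν w = rest r1)
    (h2 : pR2 G.M G.n G.ν w = rest r2) (hok : Hok G κ r1 r2 R q h) {s : S}
    (hs : s ∈ [h.1, h.2.1, h.2.2]) : sok G.M κ G.n G.ν w (lev q) s = true := by
  unfold sok
  rw [hS, h1, h2]
  rcases hok s hs with rfl | rfl | ⟨rfl, h3, h4⟩ | ⟨r, _, rfl, h3⟩
  · simp [isI, isP]
  · simp [isI, isP]
  · have e1 : isI [false, true] = false := rfl
    have e2 : isP [false, true] = true := rfl
    rw [e1, e2]
    by_cases hk1 : κ = 1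
    · have hk2 : κ ≠ 2 := by omega
      simp [hk1, h3 hk1]
    · by_cases hk2 : κ = 2
      · obtain ⟨h5, h6, h7⟩ := h4 hk2
        simp [hk2, h5, h6, h7]
      · simp [hk1, hk2]
  · have e1 : isI (true :: rest r) = true := rfl
    have e2 : isP (true :: rest r) = false := rfl
    rw [e1, e2]
    simp [h3]

private theorem Re2_ev {n τ a : ℕ} {mode : Bool} {low low' : S → Bool} {key key' : S} {b : Bool}
    {L : List (S × Hst)} {p : Bool} {X : S → Bool} {R : List S} {q : S} (hq : q ∈ R)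
    (hlow : mode = true → low' = low) (hkey : mode = true ∨ key' = key) :
    ev n τ a mode low' key' b (R.map (fun q => (q, look L q))) p X q =
      evF n τ a mode low key b L p X q := by
  unfold ev evF
  rw [fv_map (h := fun q => look L q) hq]
  cases mode with
  | true => rw [hlow rfl]; simp
  | false =>
    rcases hkey with h | h
    · exact absurd h (by simp)
    · rw [h]; simp

private theorem Re2_vio {M : Mac} {e e' : S → Bool} {t : S} (h : e t = e' t)
    (h' : ∀ q ∈ M.qs t, e q = e' q) : vio M e t = vio M e' t := by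
  unfold vio
  rw [h]
  congr 2
  refine List.map_congr_left fun q hq => ?_
  rw [h' q hq]

/-- Proof. `exists_w` (with `key := z` if `κ ≠ 0` or `mode = true`); `val` for the kind `κ`, the mode and the
function `low'` (in mode `false` the function `low` does not matter): `legit` from `hL` (for a relevant string without
host all the symbols are `[false]`, `[]`), `hτ1`, `hτ2`; for the unknown bits `X` and `p` with `cnd` use `hvio`
(`fv_map`, `evP` and `ge` agree on `rl`; `vio` depends only on the values at the target and its queries, all in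
`rl`). -/
theorem realize {G : Par} (H : Hyp G) {u u2 z z2 : S} (hu : u.length = G.n ^ 2)
    (hu2 : u2.length = G.n ^ 2) (hz : z ∈ G.M.qs (yy G u)) (hz2 : z2 ∈ G.M.qs (yy G u2))
    (mode b : Bool) {key r1 r2 : S} (κ : ℕ)
    (hkey : (κ ≠ 0 ∧ key = [] ∧ mode = false) ∨ mode = true ∨
      (κ = 0 ∧ keyable 3 G.n G.a key = true ∧ key ∈ rl G u u2 z z2))
    (hr1 : r1 ∈ rl G u u2 z z2) (hr2 : r2 ∈ rl G u u2 z z2)
    (hτ1 : κ ≠ 0 → (rest r1).length ≤ G.τ) (hτ2 : κ ≠ 0 → (rest r2).length ≤ G.τ)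
    {L : List (S × Hst)} (hL : ∀ e ∈ L, Hok G κ r1 r2 (rl G u u2 z z2) e.1 e.2)
    (hvio : ∀ (X : S → Bool) (p : Bool), Cnd κ r1 r2 X p →
      ∃ t ∈ [yy G u, yy G u2, z, z2], vio G.M (ge G mode key b L p X) t = true) :
    ∃ w : S, w.length = WW G.n ∧ pS G.n G.ν w = 2 ^ G.i ∧
      ∀ low' : S → Bool, (mode = true → low' = G.low) →
        val G.M κ G.n G.ν G.τ G.a mode low' w = true := by
  obtain ⟨key', hk1, hk2, hk3⟩ : ∃ key' : S, key' ∈ rl G u u2 z z2 ∧
      (mode = true ∨ (if κ = 0 then key' else []) = key) ∧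
      (κ ≠ 0 ∨ mode = true ∨ keyable 3 G.n G.a key' = true) := by
    have hzr : z ∈ rl G u u2 z z2 := by
      unfold rl
      exact List.mem_append_left _ (by simp)
    rcases hkey with ⟨h1, h2, h3⟩ | h | ⟨h1, h2, h3⟩
    · exact ⟨z, hzr, Or.inr (by rw [if_neg h1, h2]), Or.inl h1⟩
    · exact ⟨z, hzr, Or.inl h, Or.inr (Or.inl h)⟩
    · exact ⟨key, h3, Or.inr (by rw [if_pos h1]), Or.inr (Or.inr h2)⟩
  obtain ⟨w, hw, hS, hB, ht, hr, hK, h1, h2, hH⟩ :=
    exists_w H hu hu2 hz hz2 b hk1 hr1 hr2 hL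
  refine ⟨w, hw, hS, fun low' hlow => ?_⟩
  have hev : ∀ (X : S → Bool) (p : Bool), ∀ q ∈ rl G u u2 z z2,
      evP G.M κ G.n G.ν G.τ G.a mode low' w p X q = ge G mode key b L p X q := by
    intro X p q hq
    unfold evP ge
    rw [hB, hH, hK]
    exact Re2_ev hq hlow hk2
  unfold val
  rw [Bool.and_eq_true, Bool.and_eq_true]
  refine ⟨⟨?_, ?_⟩, ?_⟩
  · unfold legit
    rw [Bool.and_eq_true]
    constructor
    · rw [List.all_eq_true, hH]
      intro r hrm
      obtain ⟨q, _, rfl⟩ := List.mem_map.1 hrm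
      have hok : Hok G κ r1 r2 (rl G u u2 z z2) q (look L q) := by
        rcases Re2_look L q with h | ⟨e, h3, h4, h5⟩
        · rw [h]
          exact Hok_hc _
        · rw [← h5, ← h4]
          exact hL e h3
      rw [Bool.and_eq_true, Bool.and_eq_true]
      exact ⟨⟨Re2_sok hS h1 h2 hok (by simp), Re2_sok hS h1 h2 hok (by simp)⟩,
        Re2_sok hS h1 h2 hok (by simp)⟩
    · rw [h1, h2]
      by_cases h : κ = 0
      · simp [h]
      · simp [hτ1 h, hτ2 h]
  · rcases hk3 with h | h | h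
    · simp [h]
    · simp [h]
    · rw [Bool.or_eq_true]
      right
      have h6 : keyok G.M G.n G.ν G.a w = keyable 3 G.n G.a (pK G.M G.n G.ν w) := rfl
      rw [h6, hK]
      exact h
  · rw [List.all_eq_true]
    intro xs _
    rw [List.all_eq_true]
    intro p _
    rw [Bool.or_eq_true, Bool.not_eq_true']
    by_cases hc : cnd G.M κ G.n G.ν w
        (fun s => decide (s ∈ sel xs (nms (rel G.M G.n G.ν w)))) p = true
    · right
      have hC : Cnd κ r1 r2 (fun s => decide (s ∈ sel xs (nms (rel G.M G.n G.ν w)))) p := by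
        unfold cnd at hc
        rw [h1, h2] at hc
        unfold Cnd
        by_cases hκ0 : κ = 0
        · rw [if_pos hκ0] at hc
          rw [if_pos hκ0]
          simpa using hc
        · rw [if_neg hκ0] at hc
          rw [if_neg hκ0]
          by_cases hκ1 : κ = 1
          · rw [if_pos hκ1] at hc
            rw [if_pos hκ1]
            exact eq_of_beq hc
          · rw [if_neg hκ1] at hc
            rw [if_neg hκ1]
            exact eq_of_beq hc
      obtain ⟨t, htm, hv⟩ := hvio _ p hC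
      rw [List.any_eq_true]
      refine ⟨t, by rw [ht]; exact htm, ?_⟩
      rw [← hv]
      refine Re2_vio (hev _ _ t ?_) fun q hq' => hev _ _ q ?_
      · unfold rl
        exact List.mem_append_left _ htm
      · unfold rl
        exact List.mem_append_right _ (List.mem_flatMap.2 ⟨t, htm, hq'⟩)
    · left
      rwa [Bool.not_eq_true] at hc

/-- Static plans: `realize` with `κ = 0`, `r1 = r2 = z`. -/
theorem stat_of {G : Par} (H : Hyp G) {u u2 z z2 : S} (hu : u.length = G.n ^ 2)
    (hu2 : u2.length = G.n ^ 2) (hz : z ∈ G.M.qs (yy G u)) (hz2 : z2 ∈ G.M.qs (yy G u2))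
    (mode b : Bool) {key : S}
    (hkey : mode = true ∨ (keyable 3 G.n G.a key = true ∧ key ∈ rl G u u2 z z2))
    {L : List (S × Hst)} (hL : ∀ e ∈ L, Hok G 0 [] [] (rl G u u2 z z2) e.1 e.2)
    (hvio : ∀ X : S → Bool,
      ∃ t ∈ [yy G u, yy G u2, z, z2], vio G.M (ge G mode key b L false X) t = true) : Stat G := by
  have hzr : z ∈ rl G u u2 z z2 := by
    unfold rl
    exact List.mem_append_left _ (by simp)
  obtain ⟨w, hw, _, hv⟩ := realize (r1 := z) (r2 := z) (key := key) (L := L) H hu hu2 hz hz2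
    mode b 0
    (by
      rcases hkey with h | ⟨h1, h2⟩
      · exact Or.inr (Or.inl h)
      · exact Or.inr (Or.inr ⟨rfl, h1, h2⟩))
    hzr hzr (fun h => absurd rfl h) (fun h => absurd rfl h)
    (fun e he s hs => by
      rcases hL e he s hs with h | h | ⟨h, _, _⟩ | h
      · exact Or.inl h
      · exact Or.inr (Or.inl h)
      · exact Or.inr (Or.inr (Or.inl ⟨h, fun h' => absurd h' (by omega),
          fun h' => absurd h' (by omega)⟩))
      · exact Or.inr (Or.inr (Or.inr h)))
    (fun X p hC => by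
      have hp : p = false := by
        unfold Cnd at hC
        rwa [if_pos rfl] at hC
      rw [hp]
      exact hvio X)
  refine ⟨w, hw, ?_⟩
  cases mode with
  | true => exact Or.inr (hv G.low fun _ => rfl)
  | false => exact Or.inl (hv (fun _ => false) fun h => absurd h (by simp))

/-- Plans of kind `1` and `2`: `realize` with `mode = false`, `key = []`. -/
theorem kin_of {G : Par} (H : Hyp G) {u u2 z z2 : S} (hu : u.length = G.n ^ 2)
    (hu2 : u2.length = G.n ^ 2) (hz : z ∈ G.M.qs (yy G u)) (hz2 : z2 ∈ G.M.qs (yy G u2))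
    (b : Bool) {r1 r2 : S} {κ : ℕ} (hκ : κ = 1 ∨ κ = 2)
    (hr1 : r1 ∈ rl G u u2 z z2) (hr2 : r2 ∈ rl G u u2 z z2)
    (hτ1 : (rest r1).length ≤ G.τ) (hτ2 : (rest r2).length ≤ G.τ)
    {L : List (S × Hst)} (hL : ∀ e ∈ L, Hok G κ r1 r2 (rl G u u2 z z2) e.1 e.2)
    (hvio : ∀ (X : S → Bool) (p : Bool), Cnd κ r1 r2 X p →
      ∃ t ∈ [yy G u, yy G u2, z, z2], vio G.M (ge G false [] b L p X) t = true) : Kin G κ := by
  have hκ0 : κ ≠ 0 := by omega
  obtain ⟨w, hw, hS, hv⟩ := realize H hu hu2 hz hz2 false b κ (Or.inl ⟨hκ0, rfl, rfl⟩) hr1 hr2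
    (fun _ => hτ1) (fun _ => hτ2) hL hvio
  exact ⟨w, hw, hS, hv (fun _ => false) fun h => absurd h (by simp)⟩

end Pool.Agent.Helper5.BH
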