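import Pool.Agent.Helper5.BH.Fin
import Pool.Agent.Helper5.BH.Real

/-!
Project BH: targets whose value can be prescribed.
-/

namespace Pool.Agent.Helper5.BH

open Pool.Agent.Helper21.BX (S lead rest msk fre sh isSh idx lev isMsk isFre isCod inI Mac num tbl vio
  allB sel lead_sh rest_sh idx_sh lev_sh lev_msk lev_fre isSh_sh isSh_msk isSh_fre isMsk_msk isMsk_fre
  isMsk_sh isFre_fre isFre_msk isFre_sh isSh_iff mem_allB)
open Pool.Agent.Helper21.BY
open Pool.Agent.Helper5.BG (resp vio_iff Es mem_Es Es_card resp_congr InI sh_inj fre_inj sh_ne_fre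
  sh_ne_msk fre_ne_msk inI_sh keyable eq_msk isSh_of_cod)

/-- A target `t` whose value can be prescribed in both scenarios `b`: with the assignments `A b v` the value is `v`
(or the target `yy G u` is violated), with the assignments `P b` it is `p ^^ γ b` (or the target `yy G u` is
violated). The assignments concern only strings outside of `Es G.M t`. -/
structure QF (G : Par) (u t : S) where
  /-- a query of `yy G u` -/
  z : S
  hz : z ∈ G.M.qs (yy G u)
  ht : t = yy G u ∨ t = z
  hlev : ∀ q ∈ Es G.M t, lev q ≤ G.τ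
  /-- the assignments for constants -/
  A : Bool → Bool → List (S × Hst)
  hA : ∀ b v, ∀ e ∈ A b v, e.1 ∉ Es G.M t ∧ ∀ κ r1 r2 R, Hok G κ r1 r2 R e.1 e.2
  /-- the assignments for the special bit -/
  P : Bool → List (S × Hst)
  hPa : ∀ b, ∀ e ∈ P b, e.1 ∉ Es G.M t ∧ ∀ r1 r2, Hok G 1 r1 r2 (rl G u u z z) e.1 e.2
  /-- the constants -/
  γ : Bool → Bool
  spec : ∀ (b v : Bool) (L : List (S × Hst)), (∀ e ∈ L, e.1 ∈ Es G.M t) →
    ∀ (mode : Bool) (key : S) (p : Bool) (X : S → Bool),
      vio G.M (ge G mode key b (A b v ++ L) p X) (yy G u) = true ∨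
        ge G mode key b (A b v ++ L) p X t = v
  specp : ∀ (b : Bool) (L : List (S × Hst)), (∀ e ∈ L, e.1 ∈ Es G.M t) →
    ∀ (mode : Bool) (key : S) (p : Bool) (X : S → Bool),
      vio G.M (ge G mode key b (P b ++ L) p X) (yy G u) = true ∨
        ge G mode key b (P b ++ L) p X t = (p ^^ γ b)

/-- The situation in which `yy G u` reads through the mask. -/
structure Cond (G : Par) (u : S) (j : Bool) (c c' : S) (g : Bool) (ψ : Bool → Bool) : Prop where
  hc : InI G.n G.τ c
  hc' : InI G.n G.τ c'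
  len : c'.length ≤ c.length
  m : sh (fi j) c ∈ Es G.M (yy G u)
  m' : sh (fi (!j)) c' ∈ Es G.M (yy G u)
  m0 : msk G.n ∈ Es G.M (yy G u)
  r1 : ∀ e : S → Bool, e (msk G.n) = (!j) →
    resp G.M e (yy G u) = (e (sh (fi (!j)) c') ^^ g)
  r2 : ∀ e : S → Bool, e (msk G.n) = j →
    resp G.M e (yy G u) = (e (sh (fi j) c) ^^ ψ (e (sh (fi (!j)) c')))

private theorem qf_Hok_hP {G : Par} (H : Hyp G) {u : S} (hu : u.length = G.n ^ 2) {r1 r2 : S}
    {R : List S} : Hok G 1 r1 r2 R (yy G u) hP := by
  intro s hs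
  simp only [hP, List.mem_cons, List.not_mem_nil, or_false] at hs
  rcases hs with rfl | rfl | rfl
  · refine Or.inr (Or.inr (Or.inl ⟨rfl, fun _ => (lev_yy H hu).ge, fun h => ?_⟩))
    exact absurd h (by norm_num)
  · exact Or.inr (Or.inl rfl)
  · exact Or.inl rfl

/-- Proof. `z` any query (`H.hq`), `A b v := [(yy G u, hc v)]`, `P b := [(yy G u, hP)]`, `γ b := false`. `self_Es`, `lev_Es`,
`Hok_hc`, `lev_yy`, `ge_yy`. -/
theorem qf_y {G : Par} (H : Hyp G) {u : S} (hu : u.length = G.n ^ 2) :
    Nonempty (QF G u (yy G u)) := by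
  obtain ⟨z, hz⟩ : ∃ z, z ∈ G.M.qs (yy G u) := by
    have h := H.hq (yy G u)
    exact List.exists_mem_of_ne_nil _ (fun h' => by rw [h'] at h; simp at h)
  refine ⟨{
    z := z
    hz := hz
    ht := Or.inl rfl
    hlev := fun q hq => lev_Es H hu hq
    A := fun _ v => [(yy G u, hc v)]
    hA := fun _ v e he => ?_
    P := fun _ => [(yy G u, hP)]
    hPa := fun _ e he => ?_
    γ := fun _ => false
    spec := fun b v L _ mode key p X => Or.inr ?_
    specp := fun b L _ mode key p X => Or.inr ?_ }⟩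
  · rw [List.mem_singleton] at he
    subst he
    exact ⟨self_Es, fun _ _ _ _ => Hok_hc v⟩
  · rw [List.mem_singleton] at he
    subst he
    exact ⟨self_Es, fun _ _ => qf_Hok_hP H hu⟩
  · rw [ge_yy H hu, List.cons_append, look_cons, if_pos rfl, hv_hc]
  · rw [ge_yy H hu, List.cons_append, look_cons, if_pos rfl, hv_hP, Bool.xor_false]

/-- Proof. Let `t = sh (fi j) c`; `z := t`. `A (!j) v := [(t, hc v)]` (`ge_free`); `A j v := [(yy G u, hc (v ^^ ψ false))]`:
`sh (fi (!j)) c'` has no host (it is not in `Es G.M t` by `Es_two`), so its value is `false` (`ge_free`), the mask has the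
value `j` (`ge_msk`), the value of `t` is `X (true :: c)` (`ge_forced`), so by `r2` the answer at `yy G u` is
`X (true :: c) ^^ ψ false`, and its value is `v ^^ ψ false`: if it is not violated, `X (true :: c) = v`.
`P (!j) := [(yy G u, hP), (t, hK c')]`, `γ (!j) := g`: by `r1` and `ge_forced` the answer at `yy G u` is
`X (true :: c') ^^ g`, its value is `p`. `P j := [(yy G u, hP)]`, `γ j := ψ false`. `mem_rl` and `len` for the host `hK c'`;
`lev_Es'` for `hlev`. -/
theorem qf_t {G : Par} (H : Hyp G) {u : S} (hu : u.length = G.n ^ 2) {j : Bool} {c c' : S} {g : Bool}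
    {ψ : Bool → Bool} (C : Cond G u j c c' g ψ) (hy : yy G u ∉ Es G.M (sh (fi j) c)) :
    Nonempty (QF G u (sh (fi j) c)) := by
  have hne : sh (fi (!j)) c' ∉ Es G.M (sh (fi j) c) := Es_two C.m C.m'
  -- the value of the other share if it has no host
  have hoth : ∀ (h : Hst) (L : List (S × Hst)), (∀ e ∈ L, e.1 ∈ Es G.M (sh (fi j) c)) →
      ∀ (mode : Bool) (key : S) (p : Bool) (X : S → Bool),
        ge G mode key j ([(yy G u, h)] ++ L) p X (sh (fi (!j)) c') = false := by
    intro h L hL mode key p X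
    have h1 : look ([(yy G u, h)] ++ L) (sh (fi (!j)) c') = hc false := by
      have h2 := look_append (l := [(yy G u, h)] ++ L) (l' := []) (q := sh (fi (!j)) c') (by
        intro e he
        rw [List.mem_append, List.mem_singleton] at he
        rcases he with rfl | he
        · exact yy_ne_sh
        · intro h3
          exact hne (h3 ▸ hL e he))
      rwa [List.append_nil] at h2
    rw [ge_free rfl C.hc', h1, hv_hc]
  -- scenario `j`: the answer at `yy G u` is `K c ^^ ψ false`
  have key1 : ∀ (h : Hst) (L : List (S × Hst)), (∀ e ∈ L, e.1 ∈ Es G.M (sh (fi j) c)) →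
      ∀ (mode : Bool) (key : S) (p : Bool) (X : S → Bool),
        vio G.M (ge G mode key j ([(yy G u, h)] ++ L) p X) (yy G u) = true ∨
          ge G mode key j ([(yy G u, h)] ++ L) p X (sh (fi j) c) = (hv X p h ^^ ψ false) := by
    intro h L hL mode key p X
    by_cases hv' : vio G.M (ge G mode key j ([(yy G u, h)] ++ L) p X) (yy G u) = true
    · exact Or.inl hv'
    · right
      rw [vio_iff, not_not, ge_yy H hu, List.cons_append, look_cons, if_pos rfl,
        ← List.cons_append, C.r2 _ (ge_msk H.hnτ), hoth h L hL] at hv'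
      rw [hv']
      cases ge G mode key j ([(yy G u, h)] ++ L) p X (sh (fi j) c) <;> cases ψ false <;> rfl
  refine ⟨{
    z := sh (fi j) c
    hz := (mem_Es.1 C.m).1
    ht := Or.inr rfl
    hlev := fun q hq => lev_Es' H hu C.m hq
    A := fun b v => if b = j then [(yy G u, hc (v ^^ ψ false))] else [(sh (fi j) c, hc v)]
    hA := fun b v e he => ?_
    P := fun b => if b = j then [(yy G u, hP)] else [(yy G u, hP), (sh (fi j) c, hK c')]
    hPa := fun b e he => ?_
    γ := fun b => if b = j then ψ false else g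
    spec := fun b v L hL mode key p X => ?_
    specp := fun b L hL mode key p X => ?_ }⟩
  · by_cases hb : b = j
    · simp only [if_pos hb, List.mem_singleton] at he
      subst he
      exact ⟨hy, fun _ _ _ _ => Hok_hc _⟩
    · simp only [if_neg hb, List.mem_singleton] at he
      subst he
      exact ⟨self_Es, fun _ _ _ _ => Hok_hc _⟩
  · by_cases hb : b = j
    · simp only [if_pos hb, List.mem_singleton] at he
      subst he
      exact ⟨hy, fun _ _ => qf_Hok_hP H hu⟩
    · simp only [if_neg hb, List.mem_cons, List.not_mem_nil, or_false] at he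
      rcases he with rfl | rfl
      · exact ⟨hy, fun _ _ => qf_Hok_hP H hu⟩
      · refine ⟨self_Es, fun _ _ => Hok_hK (r := sh (fi (!j)) c') (mem_rl List.mem_cons_self C.m')
          (rest_sh _ _) ?_⟩
        rw [lev_sh]
        exact C.len
  · by_cases hb : b = j
    · subst hb
      simp only [if_true]
      rcases key1 (hc (v ^^ ψ false)) L hL mode key p X with h | h
      · exact Or.inl h
      · right
        rw [h, hv_hc]
        cases v <;> cases ψ false <;> rfl
    · right
      have hb' : j = !b := by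
        cases b <;> cases j <;> simp_all
      simp only [if_neg hb]
      rw [ge_free hb' C.hc, List.cons_append, look_cons, if_pos rfl, hv_hc]
  · by_cases hb : b = j
    · subst hb
      simp only [if_true]
      rcases key1 hP L hL mode key p X with h | h
      · exact Or.inl h
      · right
        rw [h, hv_hP]
    · have hb' : j = !b := by
        cases b <;> cases j <;> simp_all
      have hb2 : (!j) = b := by
        rw [hb', Bool.not_not]
      simp only [if_neg hb]
      by_cases hv' : vio G.M (ge G mode key b ([(yy G u, hP), (sh (fi j) c, hK c')] ++ L) p X)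
          (yy G u) = true
      · exact Or.inl hv'
      · right
        have e1 : ge G mode key b ([(yy G u, hP), (sh (fi j) c, hK c')] ++ L) p X
            (sh (fi (!j)) c') = X (true :: c') := by
          rw [hb2]
          exact ge_forced C.hc'
        have e2 : ge G mode key b ([(yy G u, hP), (sh (fi j) c, hK c')] ++ L) p X (yy G u) = p := by
          rw [ge_yy H hu, List.cons_append, look_cons, if_pos rfl, hv_hP]
        have e3 : ge G mode key b ([(yy G u, hP), (sh (fi j) c, hK c')] ++ L) p X (sh (fi j) c) =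
            X (true :: c') := by
          rw [ge_free hb' C.hc, List.cons_append, look_cons, if_neg yy_ne_sh.symm,
            List.cons_append, look_cons, if_pos rfl, hv_hK]
        have e4 : ge G mode key b ([(yy G u, hP), (sh (fi j) c, hK c')] ++ L) p X (msk G.n) =
            (!j) := by
          rw [ge_msk H.hnτ, hb2]
        rw [vio_iff, not_not, e2, C.r1 _ e4, e1] at hv'
        rw [e3, hv']
        cases X (true :: c') <;> cases g <;> rfl

private theorem K_mem_tgt {G : Par} {u t : S} (Q : QF G u t) :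
    t ∈ [yy G u, yy G u, Q.z, Q.z] := by
  rcases Q.ht with h | h
  · exact List.mem_cons.2 (Or.inl h)
  · exact List.mem_cons_of_mem _ (List.mem_cons_of_mem _ (List.mem_cons.2 (Or.inl h)))

/-- Proof. `stat_of` with `u2 = u`, `z = z2 = Q.z`, the assignments `Q.A b (!r) ++ L`; for each `X` by `Q.spec` either
`yy G u` is violated or the value of `t` is `!r`, and the answer is `r` by `hr`. -/
theorem stat_const {G : Par} (H : Hyp G) {u t : S} (hu : u.length = G.n ^ 2) (Q : QF G u t)
    (mode b : Bool) {key : S} (hkey : mode = true ∨ (keyable 3 G.n G.a key = true ∧ key ∈ Es G.M t))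
    {L : List (S × Hst)}
    (hL : ∀ e ∈ L, e.1 ∈ Es G.M t ∧ Hok G 0 [] [] (rl G u u Q.z Q.z) e.1 e.2) (r : Bool)
    (hr : ∀ (X : S → Bool) (A : List (S × Hst)), (∀ e ∈ A, e.1 ∉ Es G.M t) →
      resp G.M (ge G mode key b (A ++ L) false X) t = r) : Stat G := by
  have ht : t ∈ [yy G u, yy G u, Q.z, Q.z] := K_mem_tgt Q
  refine stat_of H hu hu Q.hz Q.hz mode b (L := Q.A b (!r) ++ L)
    (hkey.imp_right fun h => ⟨h.1, mem_rl ht h.2⟩) ?_ ?_
  · intro e he
    rcases List.mem_append.1 he with he | he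
    · exact (Q.hA b (!r) e he).2 0 [] [] _
    · exact (hL e he).2
  · intro X
    rcases Q.spec b (!r) L (fun e he => (hL e he).1) mode key false X with h | h
    · exact ⟨yy G u, List.mem_cons_self, h⟩
    · refine ⟨t, ht, vio_iff.2 ?_⟩
      rw [h, hr X _ fun e he => (Q.hA b (!r) e he).1]
      cases r <;> decide

/-- The same for plans of kind `2` (`kin_of`). -/
theorem kin2_const {G : Par} (H : Hyp G) {u t : S} (hu : u.length = G.n ^ 2) (Q : QF G u t)
    (b : Bool) {r1 r2 : S} (hr1 : r1 ∈ Es G.M t) (hr2 : r2 ∈ Es G.M t)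
    (hτ1 : (rest r1).length ≤ G.τ) (hτ2 : (rest r2).length ≤ G.τ)
    {L : List (S × Hst)}
    (hL : ∀ e ∈ L, e.1 ∈ Es G.M t ∧ Hok G 2 r1 r2 (rl G u u Q.z Q.z) e.1 e.2) (r : Bool)
    (hr : ∀ (X : S → Bool) (p : Bool) (A : List (S × Hst)), Cnd 2 r1 r2 X p →
      (∀ e ∈ A, e.1 ∉ Es G.M t) →
      resp G.M (ge G false [] b (A ++ L) p X) t = r) : Kin G 2 := by
  have ht : t ∈ [yy G u, yy G u, Q.z, Q.z] := K_mem_tgt Q
  refine kin_of H hu hu Q.hz Q.hz b (L := Q.A b (!r) ++ L) (Or.inr rfl) (mem_rl ht hr1)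
    (mem_rl ht hr2) hτ1 hτ2 ?_ ?_
  · intro e he
    rcases List.mem_append.1 he with he | he
    · exact (Q.hA b (!r) e he).2 2 r1 r2 _
    · exact (hL e he).2
  · intro X p hp
    rcases Q.spec b (!r) L (fun e he => (hL e he).1) false [] p X with h | h
    · exact ⟨yy G u, List.mem_cons_self, h⟩
    · refine ⟨t, ht, vio_iff.2 ?_⟩
      rw [h, hr X p _ hp fun e he => (Q.hA b (!r) e he).1]
      cases r <;> decide

/-- Plans of kind `1` (`kin_of` with `r2 = r1`, the assignments `Q.P b ++ L`, `Q.specp`). -/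
theorem kin1_of {G : Par} (H : Hyp G) {u t : S} (hu : u.length = G.n ^ 2) (Q : QF G u t)
    (b : Bool) {r1 : S} (hr1 : r1 ∈ Es G.M t) (hτ1 : (rest r1).length ≤ G.τ)
    {L : List (S × Hst)}
    (hL : ∀ e ∈ L, e.1 ∈ Es G.M t ∧ ∃ v, e.2 = hc v)
    (hr : ∀ (X : S → Bool) (p : Bool) (A : List (S × Hst)), p = X (true :: rest r1) →
      (∀ e ∈ A, e.1 ∉ Es G.M t) →
      resp G.M (ge G false [] b (A ++ L) p X) t = (p ^^ !Q.γ b)) : Kin G 1 := by
  have ht : t ∈ [yy G u, yy G u, Q.z, Q.z] := K_mem_tgt Q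
  refine kin_of H hu hu Q.hz Q.hz b (L := Q.P b ++ L) (Or.inl rfl) (mem_rl ht hr1)
    (mem_rl ht hr1) hτ1 hτ1 ?_ ?_
  · intro e he
    rcases List.mem_append.1 he with he | he
    · exact (Q.hPa b e he).2 r1 r1
    · obtain ⟨v, hv⟩ := (hL e he).2
      rw [hv]
      exact Hok_hc v
  · intro X p hp
    have hp' : p = X (true :: rest r1) := by
      unfold Cnd at hp
      simpa using hp
    rcases Q.specp b L (fun e he => (hL e he).1) false [] p X with h | h
    · exact ⟨yy G u, List.mem_cons_self, h⟩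
    · refine ⟨t, ht, vio_iff.2 ?_⟩
      rw [h, hr X p _ hp' fun e he => (Q.hPa b e he).1]
      cases p <;> cases Q.γ b <;> decide

private theorem s1_nil_cod : isCod 3 [] = false := by decide

private theorem s1_ext {G : Par} {t x : S} {A : List (S × Hst)} {s : S} {h : Hst}
    (hx : x = [] ∨ x ∈ Es G.M t) (hxe : Ext G x) (hA : ∀ e ∈ A, e.1 ∉ Es G.M t) (hs : s ≠ x)
    {b p : Bool} {X : S → Bool} :
    ge G (!keyable 3 G.n G.a x) x b (A ++ [(s, h)]) p X x = kap G x := by
  rcases hx with rfl | hx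
  · unfold ge evF kap
    rw [s1_nil_cod]
    rfl
  · refine ge_extra hxe ?_
    intro e he
    rw [List.mem_append, List.mem_singleton] at he
    rcases he with he | rfl
    · exact fun h' => hA e he (h' ▸ hx)
    · exact hs

private theorem s1_key {G : Par} {t x : S} (hx : x = [] ∨ x ∈ Es G.M t) :
    (!keyable 3 G.n G.a x) = true ∨ (keyable 3 G.n G.a x = true ∧ x ∈ Es G.M t) := by
  by_cases hk : keyable 3 G.n G.a x = true
  · right
    refine ⟨hk, ?_⟩
    rcases hx with rfl | hx
    · exfalso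
      have : isSh 3 [] = false := by decide
      unfold keyable at hk
      rw [this] at hk
      simp at hk
    · exact hx
  · left
    rw [Bool.not_eq_true] at hk
    rw [hk]
    rfl

/-- Proof. `mode := !keyable 3 G.n G.a x`, `key := x`: the value of `x` is `kap G x` (`ge_extra`). Apply `fin_two` to
`g v w := g3 G.M t (sh 0 c) (sh 1 c') x v w (kap G x)` (`g3_eq`) and use `stat_const`: (1) `g false w = g true w`: `b = false`,
`L = [(sh 1 c', hc w)]`; (2) `g v false = g v true`: `b = true`, `L = [(sh 0 c, hc v)]`; (3) a sum: if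
`c.length ≤ c'.length`, `b = false`, `L = [(sh 1 c', hK c)]`, otherwise `b = true`, `L = [(sh 0 c, hK c')]`. The values:
`ge_forced`, `ge_free`, `look_append` (no string of `A` is in `Es G.M t`). -/
theorem static1 {G : Par} (H : Hyp G) {u t : S} (hu : u.length = G.n ^ 2) (Q : QF G u t)
    {c c' x : S} (hcI : InI G.n G.τ c) (hcI' : InI G.n G.τ c') (m : sh 0 c ∈ Es G.M t)
    (m' : sh 1 c' ∈ Es G.M t) (hx : x = [] ∨ x ∈ Es G.M t) (hxe : Ext G x)
    (hE : ∀ q ∈ Es G.M t, q = sh 0 c ∨ q = sh 1 c' ∨ q = x) : Stat G := by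
  have n0 : sh 0 c ≠ x := by
    rintro rfl
    exact hxe.2.2 ⟨by rw [isSh_sh]; decide, inI_sh.2 hcI⟩
  have n1 : sh 1 c' ≠ x := by
    rintro rfl
    exact hxe.2.2 ⟨by rw [isSh_sh]; decide, inI_sh.2 hcI'⟩
  have r0 : sh 0 c ∈ rl G u u Q.z Q.z := mem_rl (K_mem_tgt Q) m
  have r1 : sh 1 c' ∈ rl G u u Q.z Q.z := mem_rl (K_mem_tgt Q) m'
  -- scenario `false`: the host of the share with number one
  have v0 : ∀ (h : Hst) (X : S → Bool) (A : List (S × Hst)), (∀ e ∈ A, e.1 ∉ Es G.M t) →
      resp G.M (ge G (!keyable 3 G.n G.a x) x false (A ++ [(sh 1 c', h)]) false X) t =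
        g3 G.M t (sh 0 c) (sh 1 c') x (X (true :: c)) (hv X false h) (kap G x) := by
    intro h X A hA
    have f0 : ge G (!keyable 3 G.n G.a x) x false (A ++ [(sh 1 c', h)]) false X (sh 0 c) =
        X (true :: c) := ge_forced (b := false) hcI
    have f1 : ge G (!keyable 3 G.n G.a x) x false (A ++ [(sh 1 c', h)]) false X (sh 1 c') =
        hv X false h := by
      have := ge_free (G := G) (mode := !keyable 3 G.n G.a x) (key := x) (b := false)
        (L := A ++ [(sh 1 c', h)]) (p := false) (X := X) (j := true) rfl hcI'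
      refine this.trans ?_
      have e : sh (fi true) c' = sh 1 c' := rfl
      rw [e, look_append (fun e he h' => hA e he (h' ▸ m')), look_cons, if_pos rfl]
    rw [g3_eq hE, f0, f1, s1_ext hx hxe hA n1]
  -- scenario `true`: the host of the share with number zero
  have v1 : ∀ (h : Hst) (X : S → Bool) (A : List (S × Hst)), (∀ e ∈ A, e.1 ∉ Es G.M t) →
      resp G.M (ge G (!keyable 3 G.n G.a x) x true (A ++ [(sh 0 c, h)]) false X) t =
        g3 G.M t (sh 0 c) (sh 1 c') x (hv X false h) (X (true :: c')) (kap G x) := by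
    intro h X A hA
    have f1 : ge G (!keyable 3 G.n G.a x) x true (A ++ [(sh 0 c, h)]) false X (sh 1 c') =
        X (true :: c') := ge_forced (b := true) hcI'
    have f0 : ge G (!keyable 3 G.n G.a x) x true (A ++ [(sh 0 c, h)]) false X (sh 0 c) =
        hv X false h := by
      have := ge_free (G := G) (mode := !keyable 3 G.n G.a x) (key := x) (b := true)
        (L := A ++ [(sh 0 c, h)]) (p := false) (X := X) (j := false) rfl hcI
      refine this.trans ?_
      have e : sh (fi false) c = sh 0 c := rfl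
      rw [e, look_append (fun e he h' => hA e he (h' ▸ m)), look_cons, if_pos rfl]
    rw [g3_eq hE, f0, f1, s1_ext hx hxe hA n0]
  rcases fin_two (fun v w => g3 G.M t (sh 0 c) (sh 1 c') x v w (kap G x)) with
    ⟨w, hw⟩ | ⟨v, hv'⟩ | ⟨r, hr⟩
  · refine stat_const H hu Q (!keyable 3 G.n G.a x) false (s1_key hx) (L := [(sh 1 c', hc w)]) ?_
      (g3 G.M t (sh 0 c) (sh 1 c') x false w (kap G x)) fun X A hA => ?_
    · intro e he
      rw [List.mem_singleton] at he
      subst he
      exact ⟨m', Hok_hc _⟩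
    · rw [v0 _ X A hA, hv_hc]
      cases X (true :: c)
      · rfl
      · exact hw.symm
  · refine stat_const H hu Q (!keyable 3 G.n G.a x) true (s1_key hx) (L := [(sh 0 c, hc v)]) ?_
      (g3 G.M t (sh 0 c) (sh 1 c') x v false (kap G x)) fun X A hA => ?_
    · intro e he
      rw [List.mem_singleton] at he
      subst he
      exact ⟨m, Hok_hc _⟩
    · rw [v1 _ X A hA, hv_hc]
      cases X (true :: c')
      · rfl
      · exact hv'.symm
  · by_cases hl : c.length ≤ c'.length
    · refine stat_const H hu Q (!keyable 3 G.n G.a x) false (s1_key hx) (L := [(sh 1 c', hK c)]) ?_ r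
        fun X A hA => ?_
      · intro e he
        rw [List.mem_singleton] at he
        subst he
        exact ⟨m', Hok_hK r0 (rest_sh _ _) (by rw [lev_sh]; exact hl)⟩
      · rw [v0 _ X A hA, hv_hK]
        refine (hr _ _).trans ?_
        cases X (true :: c) <;> cases r <;> rfl
    · refine stat_const H hu Q (!keyable 3 G.n G.a x) true (s1_key hx) (L := [(sh 0 c, hK c')]) ?_ r
        fun X A hA => ?_
      · intro e he
        rw [List.mem_singleton] at he
        subst he
        exact ⟨m, Hok_hK r1 (rest_sh _ _) (by rw [lev_sh]; omega)⟩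
      · rw [v1 _ X A hA, hv_hK]
        refine (hr _ _).trans ?_
        cases X (true :: c') <;> cases r <;> rfl

/-! ### three shares -/

/-- The queries are a share of one kind and two shares of the other kind. -/
structure Tri (G : Par) (t : S) (j : Bool) (c c1 c2 : S) : Prop where
  hc : InI G.n G.τ c
  hc1 : InI G.n G.τ c1
  hc2 : InI G.n G.τ c2
  ne : c1 ≠ c2
  m : sh (fi j) c ∈ Es G.M t
  m1 : sh (fi (!j)) c1 ∈ Es G.M t
  m2 : sh (fi (!j)) c2 ∈ Es G.M t
  hE : ∀ q ∈ Es G.M t, q = sh (fi j) c ∨ q = sh (fi (!j)) c1 ∨ q = sh (fi (!j)) c2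

/-- The answer as a function of the three values. -/
def gT (G : Par) (t : S) (j : Bool) (c c1 c2 : S) : Bool → Bool → Bool → Bool :=
  g3 G.M t (sh (fi j) c) (sh (fi (!j)) c1) (sh (fi (!j)) c2)

/-- In scenario `j`: the answer for hosts `h1`, `h2` of the two free shares (the two shares are different). -/
theorem tri_j {G : Par} {t : S} {j : Bool} {c c1 c2 : S} (T : Tri G t j c c1 c2) {mode : Bool}
    {key : S} {h1 h2 : Hst} {A : List (S × Hst)} (hA : ∀ e ∈ A, e.1 ∉ Es G.M t) {p : Bool}
    {X : S → Bool} :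
    resp G.M (ge G mode key j (A ++ [(sh (fi (!j)) c1, h1), (sh (fi (!j)) c2, h2)]) p X) t =
      gT G t j c c1 c2 (X (true :: c)) (hv X p h1) (hv X p h2) := by
  unfold gT
  rw [g3_eq T.hE, ge_forced T.hc, ge_free rfl T.hc1, ge_free rfl T.hc2,
    look_append (fun e he h => hA e he (h ▸ T.m1)), look_append (fun e he h => hA e he (h ▸ T.m2)),
    look_cons, if_pos rfl, look_cons, if_neg (fun h => T.ne (sh_inj h).2.symm), look_cons,
    if_pos rfl]

/-- In scenario `!j`: the answer for the host `h` of the free share. -/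
theorem tri_nj {G : Par} {t : S} {j : Bool} {c c1 c2 : S} (T : Tri G t j c c1 c2) {mode : Bool}
    {key : S} {h : Hst} {A : List (S × Hst)} (hA : ∀ e ∈ A, e.1 ∉ Es G.M t) {p : Bool}
    {X : S → Bool} :
    resp G.M (ge G mode key (!j) (A ++ [(sh (fi j) c, h)]) p X) t =
      gT G t j c c1 c2 (hv X p h) (X (true :: c1)) (X (true :: c2)) := by
  unfold gT
  rw [g3_eq T.hE, ge_free (Bool.not_not j).symm T.hc, ge_forced T.hc1, ge_forced T.hc2,
    look_append (fun e he h => hA e he (h ▸ T.m)), look_cons, if_pos rfl]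

/-- the share `c` is a relevant string -/
private theorem tri_rl {G : Par} {u t : S} (Q : QF G u t) {j : Bool} {c c1 c2 : S}
    (T : Tri G t j c c1 c2) : sh (fi j) c ∈ rl G u u Q.z Q.z := by
  refine mem_rl (t := t) ?_ T.m
  rcases Q.ht with h | h
  · exact List.mem_cons.2 (Or.inl h)
  · exact List.mem_cons_of_mem _ (List.mem_cons_of_mem _ (List.mem_cons.2 (Or.inl h)))

/-- `stat_const` in scenario `j` with constant hosts (`tri_j`), `mode = true`. -/
theorem tri_const {G : Par} (H : Hyp G) {u t : S} (hu : u.length = G.n ^ 2) (Q : QF G u t)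
    {j : Bool} {c c1 c2 : S} (T : Tri G t j c c1 c2)
    (h : ∃ y1 y2, gT G t j c c1 c2 false y1 y2 = gT G t j c c1 c2 true y1 y2) : Stat G := by
  obtain ⟨y1, y2, h⟩ := h
  refine stat_const H hu Q true j (key := []) (Or.inl rfl)
    (L := [(sh (fi (!j)) c1, hc y1), (sh (fi (!j)) c2, hc y2)]) ?_
    (gT G t j c c1 c2 false y1 y2) fun X A hA => ?_
  · intro e he
    rw [List.mem_cons, List.mem_singleton] at he
    rcases he with rfl | rfl
    · exact ⟨T.m1, Hok_hc _⟩
    · exact ⟨T.m2, Hok_hc _⟩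
  · rw [tri_j T hA, hv_hc, hv_hc]
    cases X (true :: c)
    · rfl
    · exact h.symm

/-- `stat_const` in scenario `j` with the host `hK c` of the first free share (`tri_j`), `mode = true`: the answer is
`x ^^ φ x y2` with `x = X (true :: c)`. -/
theorem tri_host1 {G : Par} (H : Hyp G) {u t : S} (hu : u.length = G.n ^ 2) (Q : QF G u t)
    {j : Bool} {c c1 c2 : S} (T : Tri G t j c c1 c2) {φ : Bool → Bool → Bool}
    (hφ : ∀ x y1 y2, gT G t j c c1 c2 x y1 y2 = (x ^^ φ y1 y2)) (hl : c.length ≤ c1.length)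
    {y2 r : Bool} (h : ∀ y1, φ y1 y2 = (y1 ^^ r)) : Stat G := by
  refine stat_const H hu Q true j (key := []) (Or.inl rfl)
    (L := [(sh (fi (!j)) c1, hK c), (sh (fi (!j)) c2, hc y2)]) ?_ r fun X A hA => ?_
  · intro e he
    rw [List.mem_cons, List.mem_singleton] at he
    rcases he with rfl | rfl
    · exact ⟨T.m1, Hok_hK (tri_rl Q T) (rest_sh _ _) (by rw [lev_sh]; exact hl)⟩
    · exact ⟨T.m2, Hok_hc _⟩
  · rw [tri_j T hA, hv_hc, hv_hK, hφ, h]
    cases X (true :: c) <;> cases r <;> rfl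

/-- The same for the second free share. -/
theorem tri_host2 {G : Par} (H : Hyp G) {u t : S} (hu : u.length = G.n ^ 2) (Q : QF G u t)
    {j : Bool} {c c1 c2 : S} (T : Tri G t j c c1 c2) {φ : Bool → Bool → Bool}
    (hφ : ∀ x y1 y2, gT G t j c c1 c2 x y1 y2 = (x ^^ φ y1 y2)) (hl : c.length ≤ c2.length)
    {y1 r : Bool} (h : ∀ y2, φ y1 y2 = (y2 ^^ r)) : Stat G := by
  refine stat_const H hu Q true j (key := []) (Or.inl rfl)
    (L := [(sh (fi (!j)) c1, hc y1), (sh (fi (!j)) c2, hK c)]) ?_ r fun X A hA => ?_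
  · intro e he
    rw [List.mem_cons, List.mem_singleton] at he
    rcases he with rfl | rfl
    · exact ⟨T.m1, Hok_hc _⟩
    · exact ⟨T.m2, Hok_hK (tri_rl Q T) (rest_sh _ _) (by rw [lev_sh]; exact hl)⟩
  · rw [tri_j T hA, hv_hc, hv_hK, hφ, h]
    cases X (true :: c) <;> cases r <;> rfl

/-- `stat_const` in scenario `!j` with a host whose value is `φ ^^ r` (`tri_nj`), `mode = true`. -/
theorem tri_mono {G : Par} (H : Hyp G) {u t : S} (hu : u.length = G.n ^ 2) (Q : QF G u t)
    {j : Bool} {c c1 c2 : S} (T : Tri G t j c c1 c2) {φ : Bool → Bool → Bool}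
    (hφ : ∀ x y1 y2, gT G t j c c1 c2 x y1 y2 = (x ^^ φ y1 y2)) {h : Hst} {r : Bool}
    (hok : Hok G 0 [] [] (rl G u u Q.z Q.z) (sh (fi j) c) h)
    (hh : ∀ X : S → Bool, hv X false h = (φ (X (true :: c1)) (X (true :: c2)) ^^ r)) : Stat G := by
  refine stat_const H hu Q true (!j) (key := []) (Or.inl rfl) (L := [(sh (fi j) c, h)]) ?_ r ?_
  · intro e he
    rw [List.mem_singleton] at he
    subst he
    exact ⟨T.m, hok⟩
  · intro X A hA
    rw [tri_nj T hA, hφ, hh X]
    cases φ (X (true :: c1)) (X (true :: c2)) <;> cases r <;> rfl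

/-- `kin2_const` in scenario `!j` with `r1 = sh (fi (!j)) c1`, `r2 = sh (fi (!j)) c2` (`tri_nj`). -/
theorem tri_kin2 {G : Par} (H : Hyp G) {u t : S} (hu : u.length = G.n ^ 2) (Q : QF G u t)
    {j : Bool} {c c1 c2 : S} (T : Tri G t j c c1 c2) {φ : Bool → Bool → Bool}
    (hφ : ∀ x y1 y2, gT G t j c c1 c2 x y1 y2 = (x ^^ φ y1 y2)) {h : Hst} {r : Bool}
    (hok : Hok G 2 (sh (fi (!j)) c1) (sh (fi (!j)) c2) (rl G u u Q.z Q.z) (sh (fi j) c) h)
    (hh : ∀ (X : S → Bool), hv X (!(X (true :: c1) && X (true :: c2))) h =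
      (φ (X (true :: c1)) (X (true :: c2)) ^^ r)) : Kin G 2 := by
  refine kin2_const H hu Q (!j) (r1 := sh (fi (!j)) c1) (r2 := sh (fi (!j)) c2) T.m1 T.m2
    (by rw [rest_sh]; exact T.hc1.2) (by rw [rest_sh]; exact T.hc2.2) (L := [(sh (fi j) c, h)]) ?_ r ?_
  · intro e he
    rw [List.mem_singleton] at he
    subst he
    exact ⟨T.m, hok⟩
  · intro X p A hC hA
    have hp : p = !(X (true :: c1) && X (true :: c2)) := by
      have h1 := hC
      unfold Cnd at h1
      rw [if_neg (by norm_num), if_neg (by norm_num), rest_sh, rest_sh] at h1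
      exact h1
    rw [tri_nj T hA, hφ, hp, hh X]
    cases φ (X (true :: c1)) (X (true :: c2)) <;> cases r <;> rfl

/-- `kin1_of` in scenario `j` with `r1 = sh (fi j) c` and constant hosts with `φ y1 y2 = !Q.γ j` (`tri_j`). -/
theorem tri_kin1 {G : Par} (H : Hyp G) {u t : S} (hu : u.length = G.n ^ 2) (Q : QF G u t)
    {j : Bool} {c c1 c2 : S} (T : Tri G t j c c1 c2) {φ : Bool → Bool → Bool}
    (hφ : ∀ x y1 y2, gT G t j c c1 c2 x y1 y2 = (x ^^ φ y1 y2))
    (h : ∀ v, ∃ y1 y2, φ y1 y2 = v) : Kin G 1 := by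
  obtain ⟨y1, y2, hy⟩ := h (!Q.γ j)
  refine kin1_of H hu Q j (r1 := sh (fi j) c) T.m (by rw [rest_sh]; exact T.hc.2)
    (L := [(sh (fi (!j)) c1, hc y1), (sh (fi (!j)) c2, hc y2)]) ?_ ?_
  · intro e he
    rw [List.mem_cons, List.mem_singleton] at he
    rcases he with rfl | rfl
    · exact ⟨T.m1, y1, rfl⟩
    · exact ⟨T.m2, y2, rfl⟩
  · intro X p A hp hA
    rw [rest_sh] at hp
    rw [tri_j T hA, hφ, hv_hc, hv_hc, hy, hp]

private theorem static2_rl {G : Par} {u t q : S} (Q : QF G u t) (hq : q ∈ Es G.M t) :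
    q ∈ rl G u u Q.z Q.z := mem_rl (K_mem_tgt Q) hq

private theorem static2_hAnd {G : Par} {κ : ℕ} {r1 r2 : S} {R : List S} {q c1 c2 q1 q2 : S}
    (h1 : q1 ∈ R) (e1 : rest q1 = c1) (l1 : c1.length ≤ lev q) (h2 : q2 ∈ R) (e2 : rest q2 = c2)
    (l2 : c2.length ≤ lev q) : Hok G κ r1 r2 R q (hAnd c1 c2) := by
  intro s hs
  simp only [hAnd, List.mem_cons, List.not_mem_nil, or_false] at hs
  rcases hs with rfl | rfl | rfl
  · exact Or.inr (Or.inr (Or.inr ⟨q1, h1, by rw [e1], by rw [e1]; exact l1⟩))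
  · exact Or.inr (Or.inl rfl)
  · exact Or.inr (Or.inr (Or.inr ⟨q2, h2, by rw [e2], by rw [e2]; exact l2⟩))

private theorem static2_hOr {G : Par} {κ : ℕ} {r1 r2 : S} {R : List S} {q c1 c2 q1 q2 : S}
    (h1 : q1 ∈ R) (e1 : rest q1 = c1) (l1 : c1.length ≤ lev q) (h2 : q2 ∈ R) (e2 : rest q2 = c2)
    (l2 : c2.length ≤ lev q) : Hok G κ r1 r2 R q (hOr c1 c2) := by
  intro s hs
  simp only [hOr, List.mem_cons, List.not_mem_nil, or_false] at hs
  rcases hs with rfl | rfl | rfl
  · exact Or.inr (Or.inr (Or.inr ⟨q1, h1, by rw [e1], by rw [e1]; exact l1⟩))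
  · exact Or.inr (Or.inr (Or.inr ⟨q2, h2, by rw [e2], by rw [e2]; exact l2⟩))
  · exact Or.inl rfl

private theorem static2_hOrp {G : Par} {r1 r2 : S} {R : List S} {q c1 c2 q1 q2 : S}
    (h1 : q1 ∈ R) (e1 : rest q1 = c1) (l1 : c1.length ≤ lev q) (h2 : q2 ∈ R) (e2 : rest q2 = c2)
    (l2 : c2.length ≤ lev q) (hn : G.n ≤ lev q) (m1 : (rest r1).length ≤ lev q)
    (m2 : (rest r2).length ≤ lev q) : Hok G 2 r1 r2 R q (hOrp c1 c2) := by
  intro s hs
  simp only [hOrp, List.mem_cons, List.not_mem_nil, or_false] at hs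
  rcases hs with rfl | rfl | rfl
  · exact Or.inr (Or.inr (Or.inr ⟨q1, h1, by rw [e1], by rw [e1]; exact l1⟩))
  · exact Or.inr (Or.inr (Or.inr ⟨q2, h2, by rw [e2], by rw [e2]; exact l2⟩))
  · exact Or.inr (Or.inr (Or.inl ⟨rfl, fun h => by norm_num at h, fun _ => ⟨hn, m1, m2⟩⟩))

private theorem static2_hKp {G : Par} {r1 r2 : S} {R : List S} {q c1 q1 : S}
    (h1 : q1 ∈ R) (e1 : rest q1 = c1) (l1 : c1.length ≤ lev q) (hn : G.n ≤ lev q)
    (m1 : (rest r1).length ≤ lev q) (m2 : (rest r2).length ≤ lev q) :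
    Hok G 2 r1 r2 R q (hKp c1) := by
  intro s hs
  simp only [hKp, List.mem_cons, List.not_mem_nil, or_false] at hs
  rcases hs with rfl | rfl | rfl
  · exact Or.inr (Or.inr (Or.inr ⟨q1, h1, by rw [e1], by rw [e1]; exact l1⟩))
  · exact Or.inr (Or.inl rfl)
  · exact Or.inr (Or.inr (Or.inl ⟨rfl, fun h => by norm_num at h, fun _ => ⟨hn, m1, m2⟩⟩))

/-- Proof. `fin_three` for `gT`; if there is no static plan by `tri_const` there is `φ`. `fin_phi φ`: constant: `tri_mono` with
a constant host; `y1 ^^ r`: `tri_host1` if `c.length ≤ c1.length`, otherwise `tri_mono` with `hK c1`; the same for `y2`;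
`(y1 && y2) ^^ r`: `tri_host1` (`y2 = true`) if `c.length ≤ c1.length`, `tri_host2` if `c.length ≤ c2.length`, otherwise
`tri_mono` with `hAnd c1 c2`; the same for `||` (`y2 = false`, `hOr c1 c2`); the last three: `tri_host1`, `tri_host2` (with
suitable constants) if a length allows it, otherwise `tri_kin1` and `tri_kin2` with `hOrp c1 c2`, `hKp c1`, `hKp c2`. -/
theorem static2 {G : Par} (H : Hyp G) {u t : S} (hu : u.length = G.n ^ 2) (Q : QF G u t)
    {j : Bool} {c c1 c2 : S} (T : Tri G t j c c1 c2) : Stat G ∨ (Kin G 1 ∧ Kin G 2) := by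
  have k1 := static2_rl Q T.m1
  have k2 := static2_rl Q T.m2
  have hlc : lev (sh (fi j) c) = c.length := lev_sh _ _
  have hn : G.n ≤ lev (sh (fi j) c) := by rw [hlc]; exact T.hc.1
  rcases fin_three (gT G t j c c1 c2) with h | ⟨φ, hφ⟩
  · exact Or.inl (tri_const H hu Q T h)
  · by_cases l1 : c.length ≤ c1.length
    · -- the first free share may carry the host
      rcases fin_phi φ with ⟨r, h⟩ | ⟨r, h⟩ | ⟨r, h⟩ | ⟨r, h⟩ | ⟨r, h⟩ | ⟨r, h⟩ | ⟨r, h⟩ | ⟨r, h⟩
      · exact Or.inl (tri_mono H hu Q T hφ (h := hc r) (r := false) (Hok_hc r)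
          (fun X => by rw [hv_hc, h, Bool.xor_false]))
      · exact Or.inl (tri_host1 H hu Q T hφ l1 (y2 := false) (r := r) (fun y1 => h y1 false))
      · by_cases l2 : c.length ≤ c2.length
        · exact Or.inl (tri_host2 H hu Q T hφ l2 (y1 := false) (r := r) (fun y2 => h false y2))
        · refine Or.inl (tri_mono H hu Q T hφ (h := hK c2) (r := r)
            (Hok_hK k2 (rest_sh _ _) (by rw [hlc]; omega)) (fun X => ?_))
          rw [hv_hK, h]
          cases X (true :: c2) <;> cases r <;> rfl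
      · exact Or.inl (tri_host1 H hu Q T hφ l1 (y2 := true) (r := r) (fun y1 => by
          rw [h]; cases y1 <;> cases r <;> rfl))
      · exact Or.inl (tri_host1 H hu Q T hφ l1 (y2 := false) (r := r) (fun y1 => by
          rw [h]; cases y1 <;> cases r <;> rfl))
      · exact Or.inl (tri_host1 H hu Q T hφ l1 (y2 := false) (r := r) (fun y1 => by
          rw [h]; cases y1 <;> cases r <;> rfl))
      · exact Or.inl (tri_host1 H hu Q T hφ l1 (y2 := false) (r := r) (fun y1 => by
          rw [h]; cases y1 <;> cases r <;> rfl))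
      · exact Or.inl (tri_host1 H hu Q T hφ l1 (y2 := true) (r := !r) (fun y1 => by
          rw [h]; cases y1 <;> cases r <;> rfl))
    · by_cases l2 : c.length ≤ c2.length
      · rcases fin_phi φ with ⟨r, h⟩ | ⟨r, h⟩ | ⟨r, h⟩ | ⟨r, h⟩ | ⟨r, h⟩ | ⟨r, h⟩ | ⟨r, h⟩ | ⟨r, h⟩
        · exact Or.inl (tri_mono H hu Q T hφ (h := hc r) (r := false) (Hok_hc r)
            (fun X => by rw [hv_hc, h, Bool.xor_false]))
        · refine Or.inl (tri_mono H hu Q T hφ (h := hK c1) (r := r)
            (Hok_hK k1 (rest_sh _ _) (by rw [hlc]; omega)) (fun X => ?_))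
          rw [hv_hK, h]
          cases X (true :: c1) <;> cases r <;> rfl
        · exact Or.inl (tri_host2 H hu Q T hφ l2 (y1 := false) (r := r) (fun y2 => h false y2))
        · exact Or.inl (tri_host2 H hu Q T hφ l2 (y1 := true) (r := r) (fun y2 => by
            rw [h]; cases y2 <;> cases r <;> rfl))
        · exact Or.inl (tri_host2 H hu Q T hφ l2 (y1 := false) (r := r) (fun y2 => by
            rw [h]; cases y2 <;> cases r <;> rfl))
        · exact Or.inl (tri_host2 H hu Q T hφ l2 (y1 := false) (r := r) (fun y2 => by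
            rw [h]; cases y2 <;> cases r <;> rfl))
        · exact Or.inl (tri_host2 H hu Q T hφ l2 (y1 := true) (r := !r) (fun y2 => by
            rw [h]; cases y2 <;> cases r <;> rfl))
        · exact Or.inl (tri_host2 H hu Q T hφ l2 (y1 := false) (r := r) (fun y2 => by
            rw [h]; cases y2 <;> cases r <;> rfl))
      · have e1 : c1.length ≤ lev (sh (fi j) c) := by rw [hlc]; omega
        have e2 : c2.length ≤ lev (sh (fi j) c) := by rw [hlc]; omega
        have m1 : (rest (sh (fi (!j)) c1)).length ≤ lev (sh (fi j) c) := by rw [rest_sh]; exact e1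
        have m2 : (rest (sh (fi (!j)) c2)).length ≤ lev (sh (fi j) c) := by rw [rest_sh]; exact e2
        rcases fin_phi φ with ⟨r, h⟩ | ⟨r, h⟩ | ⟨r, h⟩ | ⟨r, h⟩ | ⟨r, h⟩ | ⟨r, h⟩ | ⟨r, h⟩ | ⟨r, h⟩
        · exact Or.inl (tri_mono H hu Q T hφ (h := hc r) (r := false) (Hok_hc r)
            (fun X => by rw [hv_hc, h, Bool.xor_false]))
        · refine Or.inl (tri_mono H hu Q T hφ (h := hK c1) (r := r)
            (Hok_hK k1 (rest_sh _ _) e1) (fun X => ?_))
          rw [hv_hK, h]
          cases X (true :: c1) <;> cases r <;> rfl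
        · refine Or.inl (tri_mono H hu Q T hφ (h := hK c2) (r := r)
            (Hok_hK k2 (rest_sh _ _) e2) (fun X => ?_))
          rw [hv_hK, h]
          cases X (true :: c2) <;> cases r <;> rfl
        · refine Or.inl (tri_mono H hu Q T hφ (h := hAnd c1 c2) (r := r)
            (static2_hAnd k1 (rest_sh _ _) e1 k2 (rest_sh _ _) e2) (fun X => ?_))
          rw [hv_hAnd, h]
          cases X (true :: c1) <;> cases X (true :: c2) <;> cases r <;> rfl
        · refine Or.inl (tri_mono H hu Q T hφ (h := hOr c1 c2) (r := r)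
            (static2_hOr k1 (rest_sh _ _) e1 k2 (rest_sh _ _) e2) (fun X => ?_))
          rw [hv_hOr, h]
          cases X (true :: c1) <;> cases X (true :: c2) <;> cases r <;> rfl
        · refine Or.inr ⟨tri_kin1 H hu Q T hφ (fun v => ?_), tri_kin2 H hu Q T hφ (h := hOrp c1 c2)
            (r := r) (static2_hOrp k1 (rest_sh _ _) e1 k2 (rest_sh _ _) e2 hn m1 m2) (fun X => ?_)⟩
          · refine ⟨v ^^ r, false, ?_⟩
            rw [h]
            cases v <;> cases r <;> rfl
          · rw [hv_hOrp, h]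
            cases X (true :: c1) <;> cases X (true :: c2) <;> cases r <;> rfl
        · refine Or.inr ⟨tri_kin1 H hu Q T hφ (fun v => ?_), tri_kin2 H hu Q T hφ (h := hKp c1)
            (r := r) (static2_hKp k1 (rest_sh _ _) e1 hn m1 m2) (fun X => ?_)⟩
          · refine ⟨v ^^ r, false, ?_⟩
            rw [h]
            cases v <;> cases r <;> rfl
          · rw [hv_hKp, h]
            cases X (true :: c1) <;> cases X (true :: c2) <;> cases r <;> rfl
        · refine Or.inr ⟨tri_kin1 H hu Q T hφ (fun v => ?_), tri_kin2 H hu Q T hφ (h := hKp c2)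
            (r := r) (static2_hKp k2 (rest_sh _ _) e2 hn m1 m2) (fun X => ?_)⟩
          · refine ⟨false, v ^^ r, ?_⟩
            rw [h]
            cases v <;> cases r <;> rfl
          · rw [hv_hKp, h]
            cases X (true :: c1) <;> cases X (true :: c2) <;> cases r <;> rfl

end Pool.Agent.Helper5.BH
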