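import Pool.Agent.Helper5.BH.Two

/-!
Project BH: pairs of targets of the same class.
-/

namespace Pool.Agent.Helper5.BH

open Pool.Agent.Helper21.BX (S lead rest msk fre sh isSh idx lev isMsk isFre isCod inI Mac num tbl vio
  allB sel lead_sh rest_sh idx_sh lev_sh lev_msk lev_fre isSh_sh isSh_msk isSh_fre isMsk_msk isMsk_fre
  isMsk_sh isFre_fre isFre_msk isFre_sh isSh_iff mem_allB)
open Pool.Agent.Helper21.BY
open Pool.Agent.Helper5.BG (resp vio_iff Es mem_Es Es_card resp_congr InI sh_inj fre_inj sh_ne_fre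
  sh_ne_msk fre_ne_msk inI_sh keyable eq_msk isSh_of_cod tf map_ofFn getD_mem length_of_low short mem_short short_card allB_card pig_num)

/-- The class of a query: its value (`true` for the mask), or the string itself if it is a low string. -/
def cl3 (G : Par) (t q : S) : Bool ⊕ S :=
  if G.M.side q = G.M.side t then Sum.inl false
  else if q = msk G.n then Sum.inl true
  else if isCod 3 q = true ∧ lev q < G.n then Sum.inr q
  else Sum.inl false

theorem cl3_low {G : Par} {t q p : S} (h : cl3 G t q = Sum.inr p) : p.length < G.n + 3 + 2 := by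
  unfold cl3 at h
  split_ifs at h with h1 h2 h3
  have e := Sum.inr.inj h
  rw [← e]
  exact length_of_low h3.1 h3.2

/-- The class gives the value, if the string is not a forced share and has no host. Proof: as `BG.cls_val`; unfold `ge`, `evF`. -/
theorem cl3_val {G : Par} (H : Hyp G) {b : Bool} {key : S} {L : List (S × Hst)} {p : Bool}
    {X : S → Bool} {t q : S} (hq : q ∈ G.M.qs t)
    (h : ∀ q ∈ Es G.M t, lev q ≤ G.τ ∧ look L q = hc false ∧
      ∀ c, InI G.n G.τ c → q ≠ sh (fi b) c) :
    ((G.M.side q != G.M.side t) && ge G true key b L p X q) =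
      Sum.elim (fun v => v && b) (ge G true key b L p X) (cl3 G t q) := by
  by_cases hs : G.M.side q = G.M.side t
  · have e : cl3 G t q = Sum.inl false := by
      unfold cl3
      rw [if_pos hs]
    rw [e]
    simp [hs]
  · have hs' : (G.M.side q != G.M.side t) = true := bne_iff_ne.2 hs
    rw [hs', Bool.true_and]
    obtain ⟨h1, h2, h3⟩ := h q (mem_Es.2 ⟨hq, hs⟩)
    by_cases hm : q = msk G.n
    · have e : cl3 G t q = Sum.inl true := by
        unfold cl3
        rw [if_neg hs, if_pos hm]
      rw [e, hm, ge_msk H.hnτ]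
      simp
    · by_cases hc : isCod 3 q = true ∧ lev q < G.n
      · have e : cl3 G t q = Sum.inr q := by
          unfold cl3
          rw [if_neg hs, if_neg hm, if_pos hc]
        rw [e]
        rfl
      · have e : cl3 G t q = Sum.inl false := by
          unfold cl3
          rw [if_neg hs, if_neg hm, if_neg hc]
        rw [e]
        have hv : ge G true key b L p X q = false := by
          unfold ge evF
          by_cases hcod : isCod 3 q = true
          · have hl : G.n ≤ lev q := by
              by_contra h4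
              exact hc ⟨hcod, by omega⟩
            have hi : inI G.n G.τ q = true := by
              unfold inI
              simp only [Bool.and_eq_true, decide_eq_true_eq]
              omega
            rw [if_pos hcod, if_pos hi]
            by_cases hM : isMsk q = true
            · rw [if_pos hM]
              have h5 : lev q ≠ G.n := by
                intro h6
                apply hm
                rw [eq_msk hM, h6]
              simp [h5]
            · rw [if_neg hM]
              by_cases hS : (isSh 3 q && decide (idx q = fi b)) = true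
              · exfalso
                rw [Bool.and_eq_true, decide_eq_true_eq] at hS
                obtain ⟨i, c, hic, rfl⟩ := isSh_iff.1 hS.1
                rw [idx_sh] at hS
                exact h3 c (inI_sh.1 hi) (by rw [hS.2])
              · rw [if_neg hS, h2, hv_hc]
          · rw [if_neg hcod]
        rw [hv]
        rfl

/-- Proof. `resp` is `tf 3` of the values at the three places (`map_ofFn`, `getD_mem`), these are given by the classes (`cl3_val`). -/
theorem resp_pair {G : Par} (H : Hyp G) {b : Bool} {key : S} {L : List (S × Hst)} {p : Bool}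
    {X : S → Bool} {t t2 : S} (htf : tf 3 G.M t = tf 3 G.M t2)
    (hcl : ∀ m : Fin 3, cl3 G t ((G.M.qs t).getD m []) = cl3 G t2 ((G.M.qs t2).getD m []))
    (h : ∀ q ∈ Es G.M t, lev q ≤ G.τ ∧ look L q = hc false ∧
      ∀ c, InI G.n G.τ c → q ≠ sh (fi b) c)
    (h2 : ∀ q ∈ Es G.M t2, lev q ≤ G.τ ∧ look L q = hc false ∧
      ∀ c, InI G.n G.τ c → q ≠ sh (fi b) c) :
    resp G.M (ge G true key b L p X) t = resp G.M (ge G true key b L p X) t2 := by
  unfold resp
  rw [map_ofFn (H.hq t), map_ofFn (H.hq t2)]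
  have e1 := congrFun htf (fun j : Fin 3 => (G.M.side ((G.M.qs t).getD j []) != G.M.side t) &&
    ge G true key b L p X ((G.M.qs t).getD j []))
  unfold tf at e1
  rw [e1]
  congr 2
  funext j
  rw [cl3_val H (getD_mem (H.hq t) j) h, cl3_val H (getD_mem (H.hq t2) j) h2, hcl j]

/-- Targets on the same side do not ask each other. -/
theorem not_mem_of_side {M : Mac} {t t2 : S} (h : M.side t = M.side t2) : t2 ∉ Es M t :=
  fun h' => (mem_Es.1 h').2 h.symm

/-- Proof. `stat_of` with `mode = true`, the scenario `b`, `z`, `z2` any queries, the assignments `[(yy G u2, hc true)]`: the first target has the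
value `false`, the second one `true` (`ge_yy`, `yy_inj`), the answers are equal (`resp_pair`, `not_mem_of_side`, `self_Es`, `lev_Es`). -/
theorem pair_y {G : Par} (H : Hyp G) {u u2 : S} (hu : u.length = G.n ^ 2)
    (hu2 : u2.length = G.n ^ 2) (hne : u ≠ u2) (b : Bool)
    (hs : G.M.side (yy G u) = G.M.side (yy G u2)) (htf : tf 3 G.M (yy G u) = tf 3 G.M (yy G u2))
    (hcl : ∀ m : Fin 3, cl3 G (yy G u) ((G.M.qs (yy G u)).getD m []) =
      cl3 G (yy G u2) ((G.M.qs (yy G u2)).getD m []))
    (h : ∀ c, InI G.n G.τ c → sh (fi b) c ∉ Es G.M (yy G u))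
    (h2 : ∀ c, InI G.n G.τ c → sh (fi b) c ∉ Es G.M (yy G u2)) : Stat G := by
  have hyy : yy G u ≠ yy G u2 := fun he => hne (yy_inj hu hu2 he)
  refine stat_of H hu hu2 (getD_mem (H.hq (yy G u)) 0) (getD_mem (H.hq (yy G u2)) 0) true b
    (key := []) (Or.inl rfl) (L := [(yy G u2, hc true)]) ?_ ?_
  · intro e he
    rw [List.mem_singleton] at he
    rw [he]
    exact Hok_hc _
  · intro X
    have e1 : ge G true [] b [(yy G u2, hc true)] false X (yy G u) = false := by
      rw [ge_yy H hu, look_cons, if_neg hyy, look_nil, hv_hc]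
    have e2 : ge G true [] b [(yy G u2, hc true)] false X (yy G u2) = true := by
      rw [ge_yy H hu2, look_cons, if_pos rfl, hv_hc]
    have e3 := resp_pair (key := []) (b := b) (L := [(yy G u2, hc true)]) (p := false)
      (X := X) H htf hcl
      (fun q hq => ⟨lev_Es H hu hq, by
        rw [look_cons, if_neg (fun he : q = yy G u2 => not_mem_of_side hs (he ▸ hq)),
          look_nil],
        fun d hd he => h d hd (he ▸ hq)⟩)
      (fun q hq => ⟨lev_Es H hu2 hq, by
        rw [look_cons, if_neg (fun he : q = yy G u2 => self_Es (he ▸ hq)), look_nil],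
        fun d hd he => h2 d hd (he ▸ hq)⟩)
    cases hr : resp G.M (ge G true [] b [(yy G u2, hc true)] false X) (yy G u2) with
    | false =>
      refine ⟨yy G u2, by simp, vio_iff.2 ?_⟩
      rw [e2, hr]
      decide
    | true =>
      refine ⟨yy G u, by simp, vio_iff.2 ?_⟩
      rw [e1, e3, hr]
      decide

/-- Proof. `stat_of` with `mode = true`, scenario `j`, `z = z2 = sh (fi j) c`, the assignments
`[(yy G u, hc (ψ false)), (yy G u2, hc (!ψ2 false))]`: by `cond_j` (the shares `sh (fi (!j)) c'`, `sh (fi (!j)) c2'` have no host) the value of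
`sh (fi j) c` is `false` or `yy G u` is violated, and it is `true` or `yy G u2` is violated. -/
theorem pair_same {G : Par} (H : Hyp G) {u u2 : S} (hu : u.length = G.n ^ 2)
    (hu2 : u2.length = G.n ^ 2) (hne : u ≠ u2) {j : Bool} {c c' c2' : S} {g g2 : Bool}
    {ψ ψ2 : Bool → Bool} (C : Cond G u j c c' g ψ) (C2 : Cond G u2 j c c2' g2 ψ2) : Stat G := by
  have hyy : yy G u2 ≠ yy G u := fun he => hne (yy_inj hu hu2 he.symm)
  refine stat_of H hu hu2 (mem_Es.1 C.m).1 (mem_Es.1 C2.m).1 true j (key := []) (Or.inl rfl)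
    (L := [(yy G u, hc (ψ false)), (yy G u2, hc (!ψ2 false))]) ?_ ?_
  · intro e he
    rw [List.mem_cons, List.mem_singleton] at he
    rcases he with he | he
    · rw [he]
      exact Hok_hc _
    · rw [he]
      exact Hok_hc _
  · intro X
    rcases cond_j (mode := true) (key := []) (p := false) (X := X)
      (L := [(yy G u, hc (ψ false)), (yy G u2, hc (!ψ2 false))]) H hu C with v1 | e1
    · exact ⟨yy G u, by simp, v1⟩
    rcases cond_j (mode := true) (key := []) (p := false) (X := X)
      (L := [(yy G u, hc (ψ false)), (yy G u2, hc (!ψ2 false))]) H hu2 C2 with v2 | e2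
    · exact ⟨yy G u2, by simp, v2⟩
    rw [look_cons, if_pos rfl, hv_hc, look_cons, if_neg yy_ne_sh.symm, look_cons,
      if_neg yy_ne_sh.symm, look_nil, hv_hc, Bool.xor_self] at e1
    rw [look_cons, if_neg hyy, look_cons, if_pos rfl, hv_hc, look_cons, if_neg yy_ne_sh.symm,
      look_cons, if_neg yy_ne_sh.symm, look_nil, hv_hc, Bool.not_xor_self] at e2
    rw [e1] at e2
    exact absurd e2 (by decide)

/-- Proof. `stat_of` with `mode = true`, scenario `!j`, `z = sh (fi j) c`, `z2 = sh (fi j) c2`, the assignments `[(z2, hc true)]`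
(`cond_t`, `resp_pair`, `lev_Es'`; `z2` is in neither `Es`). -/
theorem pair_t1 {G : Par} (H : Hyp G) {u u2 : S} (hu : u.length = G.n ^ 2)
    (hu2 : u2.length = G.n ^ 2) {j : Bool} {c c' c2 c2' : S} {g g2 : Bool}
    {ψ ψ2 : Bool → Bool} (C : Cond G u j c c' g ψ) (C2 : Cond G u2 j c2 c2' g2 ψ2) (hne : c ≠ c2)
    (hs : G.M.side (sh (fi j) c) = G.M.side (sh (fi j) c2))
    (htf : tf 3 G.M (sh (fi j) c) = tf 3 G.M (sh (fi j) c2))
    (hcl : ∀ m : Fin 3, cl3 G (sh (fi j) c) ((G.M.qs (sh (fi j) c)).getD m []) =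
      cl3 G (sh (fi j) c2) ((G.M.qs (sh (fi j) c2)).getD m []))
    (h : ∀ d, InI G.n G.τ d → sh (fi (!j)) d ∉ Es G.M (sh (fi j) c))
    (h2 : ∀ d, InI G.n G.τ d → sh (fi (!j)) d ∉ Es G.M (sh (fi j) c2)) : Stat G := by
  have hz : sh (fi j) c ≠ sh (fi j) c2 := fun he => hne (sh_inj he).2
  refine stat_of H hu hu2 (mem_Es.1 C.m).1 (mem_Es.1 C2.m).1 true (!j) (key := []) (Or.inl rfl)
    (L := [(sh (fi j) c2, hc true)]) ?_ ?_
  · intro e he
    rw [List.mem_singleton] at he
    rw [he]
    exact Hok_hc _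
  · intro X
    have e1 : ge G true [] (!j) [(sh (fi j) c2, hc true)] false X (sh (fi j) c) = false := by
      rw [cond_t C, look_cons, if_neg hz, look_nil, hv_hc]
    have e2 : ge G true [] (!j) [(sh (fi j) c2, hc true)] false X (sh (fi j) c2) = true := by
      rw [cond_t C2, look_cons, if_pos rfl, hv_hc]
    have e3 := resp_pair (key := []) (b := !j) (L := [(sh (fi j) c2, hc true)]) (p := false)
      (X := X) H htf hcl
      (fun q hq => ⟨lev_Es' H hu C.m hq, by
        rw [look_cons, if_neg (fun he : q = sh (fi j) c2 => not_mem_of_side hs (he ▸ hq)),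
          look_nil],
        fun d hd he => h d hd (he ▸ hq)⟩)
      (fun q hq => ⟨lev_Es' H hu2 C2.m hq, by
        rw [look_cons, if_neg (fun he : q = sh (fi j) c2 => self_Es (he ▸ hq)), look_nil],
        fun d hd he => h2 d hd (he ▸ hq)⟩)
    cases hr : resp G.M (ge G true [] (!j) [(sh (fi j) c2, hc true)] false X) (sh (fi j) c2) with
    | false =>
      refine ⟨sh (fi j) c2, by simp, vio_iff.2 ?_⟩
      rw [e2, hr]
      decide
    | true =>
      refine ⟨sh (fi j) c, by simp, vio_iff.2 ?_⟩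
      rw [e1, e3, hr]
      decide

/-- Proof. `stat_of` with `mode = true`, scenario `j`, `z = sh (fi j) c`, `z2 = sh (fi j) c2`, the assignments
`[(yy G u, hc (ψ false)), (yy G u2, hc (!ψ2 false))]`: by `cond_j` `z` has the value `false` or `yy G u` is violated, `z2` has the value `true` or
`yy G u2` is violated, and the answers at `z`, `z2` are equal (`resp_pair`; the two targets `yy` are in neither `Es`). -/
theorem pair_t2 {G : Par} (H : Hyp G) {u u2 : S} (hu : u.length = G.n ^ 2)
    (hu2 : u2.length = G.n ^ 2) (hne : u ≠ u2) {j : Bool} {c c' c2 c2' : S} {g g2 : Bool}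
    {ψ ψ2 : Bool → Bool} (C : Cond G u j c c' g ψ) (C2 : Cond G u2 j c2 c2' g2 ψ2)
    (hs : G.M.side (sh (fi j) c) = G.M.side (sh (fi j) c2))
    (htf : tf 3 G.M (sh (fi j) c) = tf 3 G.M (sh (fi j) c2))
    (hcl : ∀ m : Fin 3, cl3 G (sh (fi j) c) ((G.M.qs (sh (fi j) c)).getD m []) =
      cl3 G (sh (fi j) c2) ((G.M.qs (sh (fi j) c2)).getD m []))
    (h : ∀ d, InI G.n G.τ d → sh (fi j) d ∉ Es G.M (sh (fi j) c))
    (h2 : ∀ d, InI G.n G.τ d → sh (fi j) d ∉ Es G.M (sh (fi j) c2))
    (h3 : yy G u ∉ Es G.M (sh (fi j) c)) (h4 : yy G u2 ∉ Es G.M (sh (fi j) c2))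
    (h5 : yy G u2 ∉ Es G.M (sh (fi j) c)) (h6 : yy G u ∉ Es G.M (sh (fi j) c2)) : Stat G := by
  have hyy : yy G u2 ≠ yy G u := fun he => hne (yy_inj hu hu2 he.symm)
  refine stat_of H hu hu2 (mem_Es.1 C.m).1 (mem_Es.1 C2.m).1 true j (key := []) (Or.inl rfl)
    (L := [(yy G u, hc (ψ false)), (yy G u2, hc (!ψ2 false))]) ?_ ?_
  · intro e he
    rw [List.mem_cons, List.mem_singleton] at he
    rcases he with he | he
    · rw [he]
      exact Hok_hc _
    · rw [he]
      exact Hok_hc _
  · intro X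
    rcases cond_j (mode := true) (key := []) (p := false) (X := X)
      (L := [(yy G u, hc (ψ false)), (yy G u2, hc (!ψ2 false))]) H hu C with v1 | e1
    · exact ⟨yy G u, by simp, v1⟩
    rcases cond_j (mode := true) (key := []) (p := false) (X := X)
      (L := [(yy G u, hc (ψ false)), (yy G u2, hc (!ψ2 false))]) H hu2 C2 with v2 | e2
    · exact ⟨yy G u2, by simp, v2⟩
    rw [look_cons, if_pos rfl, hv_hc, look_cons, if_neg yy_ne_sh.symm, look_cons,
      if_neg yy_ne_sh.symm, look_nil, hv_hc, Bool.xor_self] at e1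
    rw [look_cons, if_neg hyy, look_cons, if_pos rfl, hv_hc, look_cons, if_neg yy_ne_sh.symm,
      look_cons, if_neg yy_ne_sh.symm, look_nil, hv_hc, Bool.not_xor_self] at e2
    have e3 := resp_pair (key := []) (b := j)
      (L := [(yy G u, hc (ψ false)), (yy G u2, hc (!ψ2 false))]) (p := false)
      (X := X) H htf hcl
      (fun q hq => ⟨lev_Es' H hu C.m hq, by
        rw [look_cons, if_neg (fun he : q = yy G u => h3 (he ▸ hq)), look_cons,
          if_neg (fun he : q = yy G u2 => h5 (he ▸ hq)), look_nil],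
        fun d hd he => h d hd (he ▸ hq)⟩)
      (fun q hq => ⟨lev_Es' H hu2 C2.m hq, by
        rw [look_cons, if_neg (fun he : q = yy G u => h6 (he ▸ hq)), look_cons,
          if_neg (fun he : q = yy G u2 => h4 (he ▸ hq)), look_nil],
        fun d hd he => h2 d hd (he ▸ hq)⟩)
    cases hr : resp G.M (ge G true [] j [(yy G u, hc (ψ false)), (yy G u2, hc (!ψ2 false))]
        false X) (sh (fi j) c2) with
    | false =>
      refine ⟨sh (fi j) c2, by simp, vio_iff.2 ?_⟩
      rw [e2, hr]
      decide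
    | true =>
      refine ⟨sh (fi j) c, by simp, vio_iff.2 ?_⟩
      rw [e1, e3, hr]
      decide

/-! ### the pigeonhole principle -/

/-- As `BG.exists_class`, with `pig_num 3 (Fintype.card α * N)`. -/
theorem exists_class3 (N : ℕ) (α : Type) [Fintype α] [DecidableEq α] : ∃ n₀ : ℕ, ∀ n, n₀ ≤ n →
    ∀ σ : S → α × ((Fin 3 → Bool) → Bool) × (Fin 3 → Bool ⊕ S),
      (∀ u, u.length = n ^ 2 → ∀ m q, (σ u).2.2 m = Sum.inr q → q.length < n + 3 + 2) →
      ∃ F : Finset S, N < F.card ∧ (∀ u ∈ F, u.length = n ^ 2) ∧ ∃ s, ∀ u ∈ F, σ u = s := by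
  classical
  obtain ⟨n₀, hn₀⟩ := pig_num 3 (Fintype.card α * N)
  refine ⟨n₀, fun n hn σ hσ => ?_⟩
  have hnum := hn₀ n hn
  let T : Finset (α × ((Fin 3 → Bool) → Bool) × (Fin 3 → Bool ⊕ S)) :=
    Finset.univ ×ˢ (Finset.univ ×ˢ
      (Fintype.piFinset (fun _ : Fin 3 => Finset.disjSum Finset.univ (short (n + 3 + 2)))))
  have hT : T.card ≤ Fintype.card α * (2 ^ 2 ^ 3 * (2 + 2 ^ (n + 3 + 2)) ^ 3) := by
    have h1 : T.card = Fintype.card α * (2 ^ 2 ^ 3 * (2 + (short (n + 3 + 2)).card) ^ 3) := by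
      simp only [T, Finset.card_product, Fintype.card_piFinset, Finset.card_disjSum,
        Finset.card_univ, Fintype.card_bool, Finset.prod_const, Fintype.card_fin,
        Fintype.card_fun]
    rw [h1]
    exact Nat.mul_le_mul_left _ (Nat.mul_le_mul_left _
      (Nat.pow_le_pow_left (Nat.add_le_add_left (short_card _) 2) 3))
  have hmaps : ∀ u ∈ (allB (n ^ 2)).toFinset, σ u ∈ T := by
    intro u hu
    rw [List.mem_toFinset, mem_allB] at hu
    simp only [T, Finset.mem_product, Finset.mem_univ, true_and, Fintype.mem_piFinset]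
    intro j
    rw [Finset.mem_disjSum]
    cases hj : (σ u).2.2 j with
    | inl v => exact Or.inl ⟨v, Finset.mem_univ _, rfl⟩
    | inr q => exact Or.inr ⟨q, mem_short.2 (hσ u hu j q hj), rfl⟩
  have hlt : T.card * N < ((allB (n ^ 2)).toFinset).card := by
    rw [allB_card]
    refine lt_of_le_of_lt ((Nat.mul_le_mul_right N hT).trans ?_) hnum
    have h2 : Fintype.card α * (2 ^ 2 ^ 3 * (2 + 2 ^ (n + 3 + 2)) ^ 3) * N =
        1 * (2 ^ 2 ^ 3 * (2 + 2 ^ (n + 3 + 2)) ^ 3 * (Fintype.card α * N)) := by ring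
    have h3 : 2 * 2 ^ 2 ^ 3 * (2 + 2 ^ (n + 3 + 2)) ^ 3 * (Fintype.card α * N) =
        2 * (2 ^ 2 ^ 3 * (2 + 2 ^ (n + 3 + 2)) ^ 3 * (Fintype.card α * N)) := by ring
    rw [h2, h3]
    exact Nat.mul_le_mul_right _ (by norm_num)
  obtain ⟨y, -, hy⟩ := Finset.exists_lt_card_fiber_of_mul_lt_card_of_maps_to hmaps hlt
  refine ⟨_, hy, ?_, y, ?_⟩
  · intro u hu
    rw [Finset.mem_filter, List.mem_toFinset, mem_allB] at hu
    exact hu.1
  · intro u hu
    rw [Finset.mem_filter] at hu
    exact hu.2

/-- Count the ordered pairs: at most `3 * F.card` pairs `(u, u2)` have `f u2 ∈ E u`, at most `3 * F.card` have `f u ∈ E u2`. -/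
theorem exists_good_pair {F : Finset S} (E : S → Finset S) (f : S → S)
    (hf : ∀ u ∈ F, ∀ v ∈ F, f u = f v → u = v) (hE : ∀ u ∈ F, (E u).card ≤ 3) (hF : 7 < F.card) :
    ∃ u ∈ F, ∃ u2 ∈ F, u ≠ u2 ∧ f u2 ∉ E u ∧ f u ∉ E u2 := by
  classical
  by_contra hcon
  have hcon' : ∀ u ∈ F, ∀ v ∈ F, u ≠ v → f v ∉ E u → f u ∈ E v := by
    intro u hu v hv huv h1
    by_contra h2
    exact hcon ⟨u, hu, v, hv, huv, h1, h2⟩
  have hA : (F.offDiag.filter (fun p => f p.2 ∈ E p.1)).card ≤ F.card * 3 := by
    rw [Finset.card_eq_sum_card_fiberwise (f := Prod.fst) (t := F)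
      (fun p hp => (Finset.mem_offDiag.1 (Finset.mem_filter.1 hp).1).1)]
    refine Finset.sum_le_card_nsmul F _ 3 fun u hu => ?_
    refine le_trans (Finset.card_le_card_of_injOn (fun p => f p.2) ?_ ?_) (hE u hu)
    · intro p hp
      obtain ⟨h1, h2⟩ := Finset.mem_filter.1 hp
      have h3 := (Finset.mem_filter.1 h1).2
      rw [h2] at h3
      exact h3
    · intro p hp q hq h
      obtain ⟨h1, h2⟩ := Finset.mem_filter.1 hp
      obtain ⟨h3, h4⟩ := Finset.mem_filter.1 hq
      have h5 := hf _ (Finset.mem_offDiag.1 (Finset.mem_filter.1 h1).1).2.1 _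
        (Finset.mem_offDiag.1 (Finset.mem_filter.1 h3).1).2.1 h
      exact Prod.ext (h2.trans h4.symm) h5
  have hB : (F.offDiag.filter (fun p => f p.1 ∈ E p.2)).card ≤ F.card * 3 := by
    rw [Finset.card_eq_sum_card_fiberwise (f := Prod.snd) (t := F)
      (fun p hp => (Finset.mem_offDiag.1 (Finset.mem_filter.1 hp).1).2.1)]
    refine Finset.sum_le_card_nsmul F _ 3 fun u hu => ?_
    refine le_trans (Finset.card_le_card_of_injOn (fun p => f p.1) ?_ ?_) (hE u hu)
    · intro p hp
      obtain ⟨h1, h2⟩ := Finset.mem_filter.1 hp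
      have h3 := (Finset.mem_filter.1 h1).2
      rw [h2] at h3
      exact h3
    · intro p hp q hq h
      obtain ⟨h1, h2⟩ := Finset.mem_filter.1 hp
      obtain ⟨h3, h4⟩ := Finset.mem_filter.1 hq
      have h5 := hf _ (Finset.mem_offDiag.1 (Finset.mem_filter.1 h1).1).1 _
        (Finset.mem_offDiag.1 (Finset.mem_filter.1 h3).1).1 h
      exact Prod.ext h5 (h2.trans h4.symm)
  have hC : F.offDiag ⊆ F.offDiag.filter (fun p => f p.2 ∈ E p.1) ∪
      F.offDiag.filter (fun p => f p.1 ∈ E p.2) := by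
    intro p hp
    obtain ⟨h1, h2, h3⟩ := Finset.mem_offDiag.1 hp
    rw [Finset.mem_union, Finset.mem_filter, Finset.mem_filter]
    by_cases h4 : f p.2 ∈ E p.1
    · exact Or.inl ⟨hp, h4⟩
    · exact Or.inr ⟨hp, hcon' _ h1 _ h2 h3 h4⟩
  have hD := (Finset.card_le_card hC).trans (Finset.card_union_le _ _)
  rw [Finset.offDiag_card] at hD
  have hE' : F.card * 8 ≤ F.card * F.card := Nat.mul_le_mul_left _ hF
  omega

end Pool.Agent.Helper5.BH
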