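import Pool.Agent.Helper5.BH.One

/-!
Project BH: the first target; the situation in which it reads through the mask.
-/

namespace Pool.Agent.Helper5.BH

open Pool.Agent.Helper21.BX (S lead rest msk fre sh isSh idx lev isMsk isFre isCod inI Mac num tbl vio
  allB sel lead_sh rest_sh idx_sh lev_sh lev_msk lev_fre isSh_sh isSh_msk isSh_fre isMsk_msk isMsk_fre
  isMsk_sh isFre_fre isFre_msk isFre_sh isSh_iff mem_allB)
open Pool.Agent.Helper21.BY
open Pool.Agent.Helper5.BG (resp vio_iff Es mem_Es Es_card resp_congr InI sh_inj fre_inj sh_ne_fre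
  sh_ne_msk fre_ne_msk inI_sh keyable eq_msk isSh_of_cod)

/-- A query: the mask, an extra string, or a share of the attack interval. -/
theorem third_cases {G : Par} {x : S} (hl : lev x ≤ G.τ) :
    x = msk G.n ∨ Ext G x ∨ ∃ (i : ℕ) (d : S), i + 1 < 3 ∧ InI G.n G.τ d ∧ x = sh i d := by
  by_cases h1 : x = msk G.n
  · exact Or.inl h1
  right
  by_cases h2 : isSh 3 x = true ∧ inI G.n G.τ x = true
  · right
    obtain ⟨i, d, hi, rfl⟩ := isSh_iff.1 h2.1
    exact ⟨i, d, hi, inI_sh.1 h2.2, rfl⟩
  · exact Or.inl ⟨hl, h1, h2⟩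

theorem ext_nil {G : Par} : Ext G [] := by
  refine ⟨Nat.zero_le _, ?_, ?_⟩
  · simp [msk]
  · rintro ⟨h, -⟩
    simp [isSh, lead] at h

/-! ### the values if the first target reads through the mask -/

section cond

variable {G : Par} {u : S} {j : Bool} {c c' : S} {g : Bool} {ψ : Bool → Bool} {mode : Bool} {key : S}
  {L : List (S × Hst)} {p : Bool} {X : S → Bool}

/-- Scenario `j`: the value of `sh (fi j) c`. -/
theorem cond_j (H : Hyp G) (hu : u.length = G.n ^ 2) (C : Cond G u j c c' g ψ) :
    vio G.M (ge G mode key j L p X) (yy G u) = true ∨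
      ge G mode key j L p X (sh (fi j) c) =
        (hv X p (look L (yy G u)) ^^ ψ (hv X p (look L (sh (fi (!j)) c')))) := by
  have h1 := C.r2 (ge G mode key j L p X) (ge_msk H.hnτ)
  rw [ge_free rfl C.hc'] at h1
  by_cases h : vio G.M (ge G mode key j L p X) (yy G u) = true
  · exact Or.inl h
  · right
    rw [vio_iff, not_not, h1, ge_yy H hu] at h
    rw [h]
    cases ge G mode key j L p X (sh (fi j) c) <;> cases ψ (hv X p (look L (sh (fi (!j)) c'))) <;> rfl

/-- Scenario `!j`: the value of `sh (fi (!j)) c'`. -/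
theorem cond_nj (H : Hyp G) (hu : u.length = G.n ^ 2) (C : Cond G u j c c' g ψ) :
    vio G.M (ge G mode key (!j) L p X) (yy G u) = true ∨
      X (true :: c') = (hv X p (look L (yy G u)) ^^ g) := by
  have h1 := C.r1 (ge G mode key (!j) L p X) (ge_msk H.hnτ)
  rw [ge_forced C.hc'] at h1
  by_cases h : vio G.M (ge G mode key (!j) L p X) (yy G u) = true
  · exact Or.inl h
  · right
    rw [vio_iff, not_not, h1, ge_yy H hu] at h
    rw [h]
    cases X (true :: c') <;> cases g <;> rfl

/-- Scenario `!j`: the value of `sh (fi j) c`. -/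
theorem cond_t (C : Cond G u j c c' g ψ) :
    ge G mode key (!j) L p X (sh (fi j) c) = hv X p (look L (sh (fi j) c)) :=
  ge_free (by simp) C.hc

theorem cond_msk (C : Cond G u j c c' g ψ) : msk G.n ∉ Es G.M (sh (fi j) c) := Es_two C.m C.m0

theorem cond_c' (C : Cond G u j c c' g ψ) : sh (fi (!j)) c' ∉ Es G.M (sh (fi j) c) := Es_two C.m C.m'

end cond

/-- Proof. The queries of `yy G u` on the other side are `sh 0 c0`, `sh 1 c1` and the mask (`exists_third`). Put
`cc false = c0`, `cc true = c1` and `γ b k f := g3 G.M (yy G u) (sh (fi b) (cc b)) (sh (fi (!b)) (cc (!b))) (msk G.n) k f b`, the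
answer in scenario `b` if the forced share has the value `k` and the free share the value `f`. If `γ b false f = γ b true f` for
some `b`, `f`: `stat_const` (with `qf_y`) in scenario `b` with the host `hc f` of the free share. Otherwise
`γ b k f = k ^^ ψ b f` for all `b`, `k`, `f`. Let `j` be such that `(cc (!j)).length ≤ (cc j).length`. By `fin_one` for `ψ (!j)`:
if it is a constant `g` then `Cond G u j (cc j) (cc (!j)) g (ψ j)`; if `ψ (!j) f = f ^^ r` then `stat_const` in scenario `!j` with
the host `hK (cc (!j))` of the free share `sh (fi j) (cc j)`: the answer is `r`. -/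
theorem dich_mask {G : Par} (H : Hyp G) {u : S} (hu : u.length = G.n ^ 2) {c0 c1 : S}
    (hc0 : InI G.n G.τ c0) (hc1 : InI G.n G.τ c1) (m0 : sh 0 c0 ∈ Es G.M (yy G u))
    (m1 : sh 1 c1 ∈ Es G.M (yy G u)) (mm : msk G.n ∈ Es G.M (yy G u)) :
    Stat G ∨ ∃ j c c' g ψ, Cond G u j c c' g ψ := by
  obtain ⟨Q⟩ := qf_y H hu
  obtain ⟨cc, hccf, hcct⟩ : ∃ cc : Bool → S, cc false = c0 ∧ cc true = c1 :=
    ⟨fun b => if b then c1 else c0, rfl, rfl⟩
  have hI : ∀ b, InI G.n G.τ (cc b) := by
    intro b
    cases b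
    · rw [hccf]
      exact hc0
    · rw [hcct]
      exact hc1
  have hm : ∀ b, sh (fi b) (cc b) ∈ Es G.M (yy G u) := by
    intro b
    cases b
    · rw [hccf]
      exact m0
    · rw [hcct]
      exact m1
  have hE : ∀ q ∈ Es G.M (yy G u), q = sh 0 c0 ∨ q = sh 1 c1 ∨ q = msk G.n := by
    obtain ⟨x, -, hx⟩ := exists_third (H.hq (yy G u)) m0 m1
      (fun h => absurd (sh_inj h).1 (by norm_num))
    have hx' : msk G.n = x := by
      rcases hx _ mm with h | h | h
      · exact absurd h.symm sh_ne_msk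
      · exact absurd h.symm sh_ne_msk
      · exact h
    rw [hx']
    exact hx
  have hEb : ∀ b, ∀ q ∈ Es G.M (yy G u),
      q = sh (fi b) (cc b) ∨ q = sh (fi (!b)) (cc (!b)) ∨ q = msk G.n := by
    intro b q hq
    cases b
    · show q = sh 0 (cc false) ∨ q = sh 1 (cc true) ∨ q = msk G.n
      rw [hccf, hcct]
      exact hE q hq
    · show q = sh 1 (cc true) ∨ q = sh 0 (cc false) ∨ q = msk G.n
      rw [hccf, hcct]
      rcases hE q hq with h | h | h
      · exact Or.inr (Or.inl h)
      · exact Or.inl h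
      · exact Or.inr (Or.inr h)
  obtain ⟨γ, hγ⟩ : ∃ γ : Bool → Bool → Bool → Bool, ∀ (b : Bool) (e : S → Bool), e (msk G.n) = b →
      resp G.M e (yy G u) = γ b (e (sh (fi b) (cc b))) (e (sh (fi (!b)) (cc (!b)))) :=
    ⟨fun b k f => g3 G.M (yy G u) (sh (fi b) (cc b)) (sh (fi (!b)) (cc (!b))) (msk G.n) k f b,
      fun b e he => by rw [g3_eq (hEb b) e, he]⟩
  -- the answers in scenario `b` for the host `h` of the free share
  have hval : ∀ (b : Bool) (h : Hst) (X : S → Bool) (A : List (S × Hst)),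
      (∀ e ∈ A, e.1 ∉ Es G.M (yy G u)) →
      resp G.M (ge G true [] b (A ++ [(sh (fi (!b)) (cc (!b)), h)]) false X) (yy G u) =
        γ b (X (true :: cc b)) (hv X false h) := by
    intro b h X A hA
    rw [hγ b _ (ge_msk H.hnτ), ge_forced (hI b), ge_free rfl (hI (!b)),
      look_append (fun e he h' => hA e he (h' ▸ hm (!b))), look_cons, if_pos rfl]
  by_cases hcon : ∃ b f, γ b false f = γ b true f
  · obtain ⟨b, f, hbf⟩ := hcon
    left
    refine stat_const H hu Q true b (key := []) (Or.inl rfl)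
      (L := [(sh (fi (!b)) (cc (!b)), hc f)]) ?_ (γ b false f) fun X A hA => ?_
    · intro e he
      rw [List.mem_singleton] at he
      subst he
      exact ⟨hm (!b), Hok_hc _⟩
    · rw [hval b _ X A hA, hv_hc]
      cases X (true :: cc b)
      · rfl
      · exact hbf.symm
  · obtain ⟨ψ, hψ⟩ : ∃ ψ : Bool → Bool → Bool, ∀ b k f, γ b k f = (k ^^ ψ b f) := by
      refine ⟨fun b f => γ b false f, fun b k f => ?_⟩
      have h1 : γ b false f ≠ γ b true f := fun h => hcon ⟨b, f, h⟩
      cases k
      · simp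
      · rw [xor_of_ne h1]
        simp
    obtain ⟨j, hj⟩ : ∃ j : Bool, (cc (!j)).length ≤ (cc j).length := by
      rcases le_total (cc true).length (cc false).length with h | h
      · exact ⟨false, h⟩
      · exact ⟨true, h⟩
    rcases fin_one (ψ (!j)) with ⟨g, hg⟩ | ⟨r, hr⟩
    · right
      exact ⟨j, cc j, cc (!j), g, ψ j, {
        hc := hI j
        hc' := hI (!j)
        len := hj
        m := hm j
        m' := hm (!j)
        m0 := mm
        r1 := fun e he => by rw [hγ (!j) e he, hψ, hg]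
        r2 := fun e he => by rw [hγ j e he, hψ] }⟩
    · left
      have hjj : (!(!j)) = j := Bool.not_not j
      refine stat_const H hu Q true (!j) (key := []) (Or.inl rfl)
        (L := [(sh (fi (!(!j))) (cc (!(!j))), hK (cc (!j)))]) ?_ r fun X A hA => ?_
      · intro e he
        rw [List.mem_singleton] at he
        subst he
        refine ⟨hm _, Hok_hK (r := sh (fi (!j)) (cc (!j))) (mem_rl List.mem_cons_self (hm (!j)))
          (rest_sh _ _) ?_⟩
        rw [lev_sh, hjj]
        exact hj
      · rw [hval (!j) _ X A hA, hv_hK, hψ, hr]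
        cases X (true :: cc (!j)) <;> cases r <;> rfl

/-- A target with shares of both kinds. Proof: `exists_third`, `third_cases` for the third string (`Q.hlev`; `ext_nil` if it is
`[]`): it is not the mask; extra: `static1`; a share with number `0`: `static2` with `j = true`, single instance `c1`, doubles `c0` and
the third; number `1`: `static2` with `j = false`. -/
theorem two_kinds {G : Par} (H : Hyp G) {u t : S} (hu : u.length = G.n ^ 2) (Q : QF G u t)
    {c0 c1 : S} (hc0 : InI G.n G.τ c0) (hc1 : InI G.n G.τ c1) (m0 : sh 0 c0 ∈ Es G.M t)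
    (m1 : sh 1 c1 ∈ Es G.M t) (mm : msk G.n ∉ Es G.M t) : Stat G ∨ (Kin G 1 ∧ Kin G 2) := by
  have hab : sh 0 c0 ≠ sh 1 c1 := fun h => absurd (sh_inj h).1 (by norm_num)
  obtain ⟨x, hx, hE⟩ := exists_third (H.hq t) m0 m1 hab
  rcases hx with rfl | ⟨hx, hx0, hx1⟩
  · exact Or.inl (static1 H hu Q hc0 hc1 m0 m1 (Or.inl rfl) ext_nil hE)
  rcases third_cases (Q.hlev x hx) with h | h | ⟨i, d, hi, hd, rfl⟩
  · rw [h] at hx
    exact absurd hx mm
  · exact Or.inl (static1 H hu Q hc0 hc1 m0 m1 (Or.inr hx) h hE)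
  · have h' : i = 0 ∨ i = 1 := by omega
    rcases h' with rfl | rfl
    · refine static2 H hu Q (j := true) (c := c1) (c1 := c0) (c2 := d)
        ⟨hc1, hc0, hd, fun h => hx0 (by rw [h]), m1, m0, hx, fun q hq => ?_⟩
      rcases hE q hq with h | h | h
      · exact Or.inr (Or.inl h)
      · exact Or.inl h
      · exact Or.inr (Or.inr h)
    · exact static2 H hu Q (j := false) (c := c0) (c1 := c1) (c2 := d)
        ⟨hc0, hc1, hd, fun h => hx1 (by rw [h]), m0, m1, hx, fun q hq => hE q hq⟩

/-- The first target. -/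
theorem dich {G : Par} (H : Hyp G) {u : S} (hu : u.length = G.n ^ 2) {c0 c1 : S}
    (hc0 : InI G.n G.τ c0) (hc1 : InI G.n G.τ c1) (m0 : sh 0 c0 ∈ Es G.M (yy G u))
    (m1 : sh 1 c1 ∈ Es G.M (yy G u)) :
    Stat G ∨ (Kin G 1 ∧ Kin G 2) ∨ ∃ j c c' g ψ, Cond G u j c c' g ψ := by
  by_cases mm : msk G.n ∈ Es G.M (yy G u)
  · rcases dich_mask H hu hc0 hc1 m0 m1 mm with h | h
    · exact Or.inl h
    · exact Or.inr (Or.inr h)
  · obtain ⟨Q⟩ := qf_y H hu
    rcases two_kinds H hu Q hc0 hc1 m0 m1 mm with h | h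
    · exact Or.inl h
    · exact Or.inr (Or.inl h)

/-! ### the second target asks the first one -/

section ask

variable {G : Par} {u : S} {j : Bool} {c c' : S} {g : Bool} {ψ : Bool → Bool}

/-- the three queries -/
private theorem D3_three (H : Hyp G) (hy : yy G u ∈ Es G.M (sh (fi j) c)) {d d' : S}
    (md : sh (fi (!j)) d ∈ Es G.M (sh (fi j) c)) (md' : sh (fi j) d' ∈ Es G.M (sh (fi j) c)) :
    ∀ q ∈ Es G.M (sh (fi j) c), q = sh (fi (!j)) d ∨ q = sh (fi j) d' ∨ q = yy G u := by
  have hab : sh (fi (!j)) d ≠ sh (fi j) d' := fun h => fi_ne j (sh_inj h).1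
  obtain ⟨x, -, hE⟩ := exists_third (H.hq _) md md' hab
  have hyx : yy G u = x := by
    rcases hE _ hy with h | h | h
    · exact absurd h yy_ne_sh
    · exact absurd h yy_ne_sh
    · exact h
  rw [hyx]
  exact hE

/-- a plan in scenario `!j` -/
private theorem D3_nj (H : Hyp G) (hu : u.length = G.n ^ 2) (C : Cond G u j c c' g ψ)
    (hy : yy G u ∈ Es G.M (sh (fi j) c)) {d d' : S} (hd : InI G.n G.τ d) (hd' : InI G.n G.τ d')
    (md : sh (fi (!j)) d ∈ Es G.M (sh (fi j) c)) (md' : sh (fi j) d' ∈ Es G.M (sh (fi j) c))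
    (h : Hst) (hok : Hok G 0 [] [] (rl G u u (sh (fi j) c) (sh (fi j) c)) (sh (fi j) d') h)
    (α r : Bool)
    (hr : ∀ X : S → Bool, g3 G.M (sh (fi j) c) (sh (fi (!j)) d) (sh (fi j) d') (yy G u)
      (X (true :: d)) (hv X false h) α = r) : Stat G := by
  have hdc : sh (fi j) d' ≠ sh (fi j) c := fun h => self_Es (h ▸ md')
  have hz : sh (fi j) c ∈ G.M.qs (yy G u) := (mem_Es.1 C.m).1
  refine stat_of (key := []) (L := [(sh (fi j) c, hc (!r)), (sh (fi j) d', h), (yy G u, hc α)])
    H hu hu hz hz true (!j) (Or.inl rfl) ?_ fun X => ⟨sh (fi j) c, by simp, ?_⟩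
  · intro e he
    rw [List.mem_cons, List.mem_cons, List.mem_singleton] at he
    rcases he with rfl | rfl | rfl
    · exact Hok_hc _
    · exact hok
    · exact Hok_hc _
  · rw [vio_iff, cond_t C, g3_eq (D3_three H hy md md'), ge_forced hd,
      ge_free (Bool.not_not j).symm hd', ge_yy H hu, look_cons, if_pos rfl, hv_hc,
      look_cons, if_neg hdc, look_cons, if_pos rfl, look_cons, if_neg yy_ne_sh, look_cons,
      if_neg yy_ne_sh, look_cons, if_pos rfl, hv_hc, hr X]
    cases r <;> simp

/-- a plan in scenario `j` -/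
private theorem D3_j (H : Hyp G) (hu : u.length = G.n ^ 2) (C : Cond G u j c c' g ψ)
    (hy : yy G u ∈ Es G.M (sh (fi j) c)) {d d' : S} (hd : InI G.n G.τ d) (hd' : InI G.n G.τ d')
    (md : sh (fi (!j)) d ∈ Es G.M (sh (fi j) c)) (md' : sh (fi j) d' ∈ Es G.M (sh (fi j) c))
    (h : Hst) (hok : Hok G 0 [] [] (rl G u u (sh (fi j) c) (sh (fi j) c)) (sh (fi (!j)) d) h)
    (α f : Bool)
    (hr : ∀ X : S → Bool, g3 G.M (sh (fi j) c) (sh (fi (!j)) d) (sh (fi j) d') (yy G u)
      (hv X false h) (X (true :: d')) α ≠ (α ^^ ψ f)) : Stat G := by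
  have hdc : sh (fi (!j)) d ≠ sh (fi (!j)) c' := fun h => cond_c' C (h ▸ md)
  have hz : sh (fi j) c ∈ G.M.qs (yy G u) := (mem_Es.1 C.m).1
  refine stat_of (key := [])
    (L := [(yy G u, hc α), (sh (fi (!j)) d, h), (sh (fi (!j)) c', hc f)])
    H hu hu hz hz true j (Or.inl rfl) ?_ fun X => ?_
  · intro e he
    rw [List.mem_cons, List.mem_cons, List.mem_singleton] at he
    rcases he with rfl | rfl | rfl
    · exact Hok_hc _
    · exact hok
    · exact Hok_hc _
  · rcases cond_j (mode := true) (key := [])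
      (L := [(yy G u, hc α), (sh (fi (!j)) d, h), (sh (fi (!j)) c', hc f)]) (p := false) (X := X)
      H hu C with h1 | h1
    · exact ⟨yy G u, by simp, h1⟩
    · refine ⟨sh (fi j) c, by simp, ?_⟩
      rw [vio_iff, h1, g3_eq (D3_three H hy md md'), ge_free rfl hd, ge_forced hd', ge_yy H hu,
        look_cons, if_pos rfl, hv_hc,
        look_cons, if_neg (fun h => yy_ne_sh h.symm), look_cons, if_neg hdc.symm, look_cons,
        if_pos rfl, hv_hc,
        look_cons, if_neg (fun h => yy_ne_sh h.symm), look_cons, if_pos rfl]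
      exact (hr X).symm

/-- The static part of `ask_two`. Proof. Let `t = sh (fi j) c`, `y = yy G u`. By cardinality `Es G.M t` consists of
`sh (fi (!j)) d`, `sh (fi j) d'`, `y`. Let `T s' s'' α` be `g3 G.M t (sh (fi (!j)) d) (sh (fi j) d') y s' s'' α`; in scenario `j` the
second string has the value `X (true :: d')` and the first one is free, in scenario `!j` the first one has the value
`X (true :: d)` and the second one is free; `y` is free; `t` is free in scenario `!j` (`cond_t`) and by `cond_j` in scenario `j` it has the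
value `α ^^ ψ f` (`f` the value of the host of `sh (fi (!j)) c'`, which is not in `Es G.M t` by `cond_c'`) or `y` is violated. All
plans are static, `stat_of` with `mode = true`, `u2 = u`, `z = z2 = t`.
(a) `T false s'' α = T true s'' α = r`: scenario `!j`, hosts `hc (!r)` at `t`, `hc s''`, `hc α`. Otherwise (`fin_three`)
`T s' s'' α = s' ^^ φ s'' α`; use `fin_one` for `fun s'' => φ s'' α`.
(b) for some `α` it is a constant `r`: scenario `j`, hosts `hc α` at `y` and `hc (!(α ^^ ψ false ^^ r))` at `sh (fi (!j)) d`.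
(c) otherwise `φ s'' α = s'' ^^ γ α`; if `d.length ≤ d'.length`: scenario `!j`, hosts `hc (!γ false)` at `t`, `hK d` at
`sh (fi j) d'`, `hc false` at `y`.
(d) `d'.length < d.length` and `γ α ≠ (α ^^ ψ f)` for some `α`, `f`: scenario `j`, hosts `hc α` at `y`, `hK d'` at
`sh (fi (!j)) d`, `hc f` at `sh (fi (!j)) c'`. -/
theorem ask_two_static (H : Hyp G) (hu : u.length = G.n ^ 2) (C : Cond G u j c c' g ψ)
    (hy : yy G u ∈ Es G.M (sh (fi j) c)) {d d' : S} (hd : InI G.n G.τ d) (hd' : InI G.n G.τ d')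
    (md : sh (fi (!j)) d ∈ Es G.M (sh (fi j) c)) (md' : sh (fi j) d' ∈ Es G.M (sh (fi j) c))
    (hns : ¬ Stat G) :
    d'.length < d.length ∧ (∀ f, ψ f = ψ false) ∧
      ∀ e : S → Bool, resp G.M e (sh (fi j) c) =
        (e (sh (fi (!j)) d) ^^ e (sh (fi j) d') ^^ e (yy G u) ^^ ψ false) := by
  set T : Bool → Bool → Bool → Bool :=
    g3 G.M (sh (fi j) c) (sh (fi (!j)) d) (sh (fi j) d') (yy G u) with hT
  have hz : ∀ {q : S}, q ∈ Es G.M (sh (fi j) c) → q ∈ rl G u u (sh (fi j) c) (sh (fi j) c) :=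
    fun h => mem_rl (t := sh (fi j) c) (by simp) h
  -- the first string counts
  obtain ⟨φ, hφ⟩ : ∃ φ : Bool → Bool → Bool, ∀ x y1 y2, T x y1 y2 = (x ^^ φ y1 y2) := by
    rcases fin_three T with ⟨s, α, h⟩ | h
    · exfalso
      refine hns (D3_nj H hu C hy hd hd' md md' (hc s) (Hok_hc _) α (T false s α) fun X => ?_)
      rw [hv_hc]
      cases X (true :: d)
      · rfl
      · exact h.symm
    · exact h
  -- the second string counts
  have h2 : ∀ α, ∃ γ : Bool, ∀ s, φ s α = (s ^^ γ) := by
    intro α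
    rcases fin_one (fun s => φ s α) with ⟨r, h⟩ | h
    · exfalso
      refine hns (D3_j H hu C hy hd hd' md md' (hc (!(α ^^ ψ false ^^ r))) (Hok_hc _) α false
        fun X => ?_)
      have h3 := hφ (!(α ^^ ψ false ^^ r)) (X (true :: d')) α
      have h4 : φ (X (true :: d')) α = r := h _
      rw [h4] at h3
      rw [hv_hc]
      change T _ _ _ ≠ _
      rw [h3]
      cases α <;> cases ψ false <;> cases r <;> simp
    · exact h
  obtain ⟨γ, hγ⟩ : ∃ γ : Bool → Bool, ∀ s α, φ s α = (s ^^ γ α) :=
    ⟨fun α => (h2 α).choose, fun s α => (h2 α).choose_spec s⟩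
  have hl : d'.length < d.length := by
    by_contra hl
    rw [not_lt] at hl
    refine hns (D3_nj H hu C hy hd hd' md md' (hK d)
      (Hok_hK (hz md) (rest_sh _ _) (by rw [lev_sh]; exact hl)) false (γ false) fun X => ?_)
    rw [hv_hK]
    change T _ _ _ = _
    rw [hφ, hγ]
    cases X (true :: d) <;> cases γ false <;> rfl
  have h5 : ∀ α f, γ α = (α ^^ ψ f) := by
    intro α f
    by_contra h6
    refine hns (D3_j H hu C hy hd hd' md md' (hK d')
      (Hok_hK (hz md') (rest_sh _ _) (by rw [lev_sh]; exact hl.le)) α f fun X => ?_)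
    rw [hv_hK]
    change T _ _ _ ≠ _
    rw [hφ, hγ]
    intro h7
    apply h6
    rw [← h7]
    cases X (true :: d') <;> cases γ α <;> rfl
  have h8 : ∀ f, ψ f = γ false := by
    intro f
    rw [h5 false f, Bool.false_xor]
  refine ⟨hl, fun f => by rw [h8, h8], fun e => ?_⟩
  rw [g3_eq (D3_three H hy md md')]
  change T _ _ _ = _
  rw [hφ, hγ, h5 (e (yy G u)) false]
  cases e (sh (fi (!j)) d) <;> cases e (sh (fi j) d') <;> cases e (yy G u) <;> cases ψ false <;> rfl

/-- Proof. Kind `2` (`kin_of`): scenario `j`, `r1 = r2 = sh (fi j) d'`, host `hP` at `sh (fi (!j)) d` (admissible since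
`G.n ≤ d.length`, `d'.length ≤ d.length`), nothing else: `p = !X (true :: d')`, so the answer at `t` is `!ψ false`, and by `cond_j` the
value of `t` is `ψ false` or `y` is violated. Kind `1`: scenario `!j`, `r1 = r2 = sh (fi (!j)) d`, hosts `hP` at `y`, `hc (!ψ false)` at
`sh (fi j) d'`, `hc false` at `t`: if `p = X (true :: d)` the answer is `true`. -/
theorem ask_two_hard (H : Hyp G) (hu : u.length = G.n ^ 2) (C : Cond G u j c c' g ψ)
    {d d' : S} (hd : InI G.n G.τ d) (hd' : InI G.n G.τ d')
    (hy : yy G u ∈ Es G.M (sh (fi j) c))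
    (md : sh (fi (!j)) d ∈ Es G.M (sh (fi j) c)) (md' : sh (fi j) d' ∈ Es G.M (sh (fi j) c))
    (hl : d'.length < d.length)
    (hr : ∀ e : S → Bool, resp G.M e (sh (fi j) c) =
        (e (sh (fi (!j)) d) ^^ e (sh (fi j) d') ^^ e (yy G u) ^^ ψ false)) :
    Kin G 1 ∧ Kin G 2 := by
  have ht : sh (fi j) c ∈ [yy G u, yy G u, sh (fi j) c, sh (fi j) c] := by simp
  have hz : sh (fi j) c ∈ G.M.qs (yy G u) := (mem_Es.1 C.m).1
  have htd : sh (fi j) c ≠ sh (fi j) d' := by
    intro h
    rw [← h] at md'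
    exact self_Es md'
  have hcd : sh (fi (!j)) c' ≠ sh (fi (!j)) d := by
    intro h
    rw [← h] at md
    exact cond_c' C md
  constructor
  · refine kin_of H hu hu hz hz (!j) (κ := 1) (r1 := sh (fi (!j)) d) (r2 := sh (fi (!j)) d)
      (L := [(yy G u, hP), (sh (fi j) d', hc (!ψ false)), (sh (fi j) c, hc false)]) (Or.inl rfl)
      (mem_rl ht md) (mem_rl ht md) (by rw [rest_sh]; exact hd.2) (by rw [rest_sh]; exact hd.2)
      ?_ ?_
    · intro e he
      simp only [List.mem_cons, List.not_mem_nil, or_false] at he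
      rcases he with rfl | rfl | rfl
      · intro s hs
        simp only [hP, List.mem_cons, List.not_mem_nil, or_false] at hs
        rcases hs with rfl | rfl | rfl
        · refine Or.inr (Or.inr (Or.inl ⟨rfl, fun _ => ?_, fun h => absurd h (by norm_num)⟩))
          rw [lev_yy H hu]
        · exact Or.inr (Or.inl rfl)
        · exact Or.inl rfl
      · exact Hok_hc _
      · exact Hok_hc _
    · intro X p hp
      have hp' : p = X (true :: d) := by
        unfold Cnd at hp
        rw [rest_sh] at hp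
        simpa using hp
      refine ⟨sh (fi j) c, ht, vio_iff.2 ?_⟩
      rw [hr, cond_t C, ge_forced hd, ge_free (by simp) hd', ge_yy H hu]
      simp only [look_cons, look_nil, if_pos, yy_ne_sh.symm, htd, htd.symm, if_false, if_true,
        hv_hc, hv_hP, ← hp']
      cases p <;> cases ψ false <;> decide
  · refine kin_of H hu hu hz hz j (κ := 2) (r1 := sh (fi j) d') (r2 := sh (fi j) d')
      (L := [(sh (fi (!j)) d, hP)]) (Or.inr rfl)
      (mem_rl ht md') (mem_rl ht md') (by rw [rest_sh]; exact hd'.2) (by rw [rest_sh]; exact hd'.2)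
      ?_ ?_
    · intro e he
      rw [List.mem_singleton] at he
      subst he
      intro s hs
      simp only [hP, List.mem_cons, List.not_mem_nil, or_false] at hs
      rcases hs with rfl | rfl | rfl
      · refine Or.inr (Or.inr (Or.inl ⟨rfl, fun h => absurd h (by norm_num), fun _ => ?_⟩))
        rw [rest_sh, lev_sh]
        exact ⟨hd.1, hl.le, hl.le⟩
      · exact Or.inr (Or.inl rfl)
      · exact Or.inl rfl
    · intro X p hp
      have hp' : p = !X (true :: d') := by
        unfold Cnd at hp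
        rw [rest_sh] at hp
        simpa using hp
      rcases cond_j (mode := false) (key := []) (L := [(sh (fi (!j)) d, hP)]) (p := p) (X := X)
        H hu C with h | h
      · exact ⟨yy G u, List.mem_cons_self, h⟩
      · refine ⟨sh (fi j) c, ht, vio_iff.2 ?_⟩
        rw [h, hr, ge_forced hd', ge_free rfl hd, ge_yy H hu]
        simp only [look_cons, look_nil, if_pos, yy_ne_sh, hcd, if_false, if_true,
          hv_hc, hv_hP, hp']
        cases X (true :: d') <;> cases ψ false <;> decide

/-- Plan in scenario `j` for `ask_one`. -/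
private theorem D5_j (H : Hyp G) (hu : u.length = G.n ^ 2) (C : Cond G u j c c' g ψ)
    {d : S} (hd : InI G.n G.τ d)
    (md : sh (fi (!j)) d ∈ Es G.M (sh (fi j) c)) {x : S}
    (hE : ∀ q ∈ Es G.M (sh (fi j) c), q = sh (fi (!j)) d ∨ q = yy G u ∨ q = x) (mode : Bool)
    {key : S} (hkey : mode = true ∨ (keyable 3 G.n G.a key = true ∧
      key ∈ rl G u u (sh (fi j) c) (sh (fi j) c))) (α β ξ : Bool) (Lx : List (S × Hst))
    (hLx : ∀ e ∈ Lx, e.1 ∈ Es G.M (sh (fi j) c) ∧ ∃ v, e.2 = hc v)
    (hx : ∀ X : S → Bool,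
      ge G mode key j ((yy G u, hc α) :: (sh (fi (!j)) d, hc β) :: Lx) false X x = ξ)
    (hans : g3 G.M (sh (fi j) c) (sh (fi (!j)) d) (yy G u) x β α ξ ≠ (α ^^ ψ false)) : Stat G := by
  have hz : sh (fi j) c ∈ G.M.qs (yy G u) := (mem_Es.1 C.m).1
  refine stat_of H hu hu hz hz mode j hkey
    (L := (yy G u, hc α) :: (sh (fi (!j)) d, hc β) :: Lx) ?_ fun X => ?_
  · intro e he
    rcases List.mem_cons.1 he with rfl | he
    · exact Hok_hc _
    rcases List.mem_cons.1 he with rfl | he
    · exact Hok_hc _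
    obtain ⟨_, v, hv⟩ := hLx e he
    rw [hv]
    exact Hok_hc _
  · rcases cond_j (mode := mode) (key := key)
      (L := (yy G u, hc α) :: (sh (fi (!j)) d, hc β) :: Lx) (p := false) (X := X) H hu C with h | h
    · exact ⟨yy G u, List.mem_cons_self, h⟩
    · refine ⟨sh (fi j) c, by simp, vio_iff.2 ?_⟩
      have hc'E := cond_c' C
      have l1 : look ((yy G u, hc α) :: (sh (fi (!j)) d, hc β) :: Lx) (yy G u) = hc α := by
        rw [look_cons, if_pos rfl]
      have l2 : look ((yy G u, hc α) :: (sh (fi (!j)) d, hc β) :: Lx) (sh (fi (!j)) c') = hc false := by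
        have h7 : sh (fi (!j)) c' ≠ sh (fi (!j)) d := by
          intro h'
          apply hc'E
          rw [h']
          exact md
        rw [look_cons, if_neg (fun h' => yy_ne_sh h'.symm), look_cons, if_neg h7]
        have h6 : ∀ e ∈ Lx, e.1 ≠ sh (fi (!j)) c' := by
          intro e he h'
          apply hc'E
          rw [← h']
          exact (hLx e he).1
        have h5 := look_append (l := Lx) (l' := []) (q := sh (fi (!j)) c') h6
        rwa [List.append_nil] at h5
      have l3 : look ((yy G u, hc α) :: (sh (fi (!j)) d, hc β) :: Lx) (sh (fi (!j)) d) = hc β := by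
        rw [look_cons, if_neg (fun h' => yy_ne_sh h'.symm), look_cons, if_pos rfl]
      rw [l1, l2, hv_hc, hv_hc] at h
      rw [h, g3_eq hE, ge_free rfl hd, ge_yy H hu, l1, l3, hv_hc, hv_hc, hx X]
      exact hans.symm

/-- Plan in scenario `!j` for `ask_one`. -/
private theorem D5_nj (H : Hyp G) (hu : u.length = G.n ^ 2) (C : Cond G u j c c' g ψ)
    {d : S} (hd : InI G.n G.τ d) {x : S}
    (hE : ∀ q ∈ Es G.M (sh (fi j) c), q = sh (fi (!j)) d ∨ q = yy G u ∨ q = x) (mode : Bool)
    {key : S} (hkey : mode = true ∨ (keyable 3 G.n G.a key = true ∧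
      key ∈ rl G u u (sh (fi j) c) (sh (fi j) c)))
    (hans : ∀ X : S → Bool, g3 G.M (sh (fi j) c) (sh (fi (!j)) d) (yy G u) x (X (true :: d)) false
      (ge G mode key (!j) [(yy G u, hc false), (sh (fi j) c, hc (!ψ false))] false X x) =
        ψ false) : Stat G := by
  have hz : sh (fi j) c ∈ G.M.qs (yy G u) := (mem_Es.1 C.m).1
  refine stat_of H hu hu hz hz mode (!j) hkey
    (L := [(yy G u, hc false), (sh (fi j) c, hc (!ψ false))]) ?_ fun X => ?_
  · intro e he
    rcases List.mem_cons.1 he with rfl | he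
    · exact Hok_hc _
    rcases List.mem_cons.1 he with rfl | he
    · exact Hok_hc _
    exact absurd he List.not_mem_nil
  · refine ⟨sh (fi j) c, by simp, vio_iff.2 ?_⟩
    rw [cond_t C, look_cons, if_neg (fun h' => yy_ne_sh h'.symm), look_cons, if_pos rfl, hv_hc,
      g3_eq hE, ge_forced hd, ge_yy H hu, look_cons, if_pos rfl, hv_hc, hans X]
    cases ψ false <;> decide

/-- Proof. Let `t = sh (fi j) c`, `y = yy G u`, `x` the third string (`exists_third` for `sh (fi (!j)) d` and `y`). By `third_cases` it is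
extra (or `[]`, `ext_nil`) or a share `sh (fi (!j)) d2` (not the mask by `cond_msk`, not `sh (fi j) _` by `hno`). All plans are static
(`stat_of`, `u2 = u`, `z = z2 = t`); if `x` is extra take `mode = !keyable 3 G.n G.a x`, `key = x` (`ge_extra`), else `mode = true`. In
scenario `j` all three strings have constant values (hosts `hc`, `kap G x` for an extra string). If for some
constants the answer is different from `α ^^ ψ false` (`α` the value of `y`): plan in scenario `j` (`cond_j`; nothing is assigned to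
`sh (fi (!j)) c'`). Otherwise the answer is always `α ^^ ψ false`, also in scenario `!j` (where the shares have unknown values): there
`t` is free, hosts `hc (!ψ false)` at `t`, `hc false` at `y`. -/
theorem ask_one (H : Hyp G) (hu : u.length = G.n ^ 2) (C : Cond G u j c c' g ψ)
    (hy : yy G u ∈ Es G.M (sh (fi j) c)) {d : S} (hd : InI G.n G.τ d)
    (md : sh (fi (!j)) d ∈ Es G.M (sh (fi j) c))
    (hno : ∀ d', InI G.n G.τ d' → sh (fi j) d' ∉ Es G.M (sh (fi j) c)) : Stat G := by
  have htl : sh (fi j) c ∈ [yy G u, yy G u, sh (fi j) c, sh (fi j) c] := by simp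
  obtain ⟨x, hx, hE⟩ := exists_third (H.hq (sh (fi j) c)) md hy (fun h => yy_ne_sh h.symm)
  have hlx : lev x ≤ G.τ := by
    rcases hx with rfl | ⟨h, _, _⟩
    · exact Nat.zero_le _
    · exact lev_Es' H hu C.m h
  have hsh : ∀ (i : ℕ) (e : S), sh i e ≠ [] := by
    intro i e h
    have h1 := congrArg List.length h
    simp [sh] at h1
  have hxy : yy G u ≠ x := by
    rcases hx with rfl | ⟨_, _, h⟩
    · unfold yy fre
      simp
    · exact h.symm
  have hxd : sh (fi (!j)) d ≠ x := by
    rcases hx with rfl | ⟨_, h, _⟩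
    · exact hsh _ _
    · exact h.symm
  have hxt : sh (fi j) c ≠ x := by
    rcases hx with rfl | ⟨h, _, _⟩
    · exact hsh _ _
    · intro h'
      rw [← h'] at h
      exact self_Es h
  rcases third_cases hlx with h1 | h1 | ⟨i, d2, hi, hd2, rfl⟩
  · exfalso
    rcases hx with h2 | ⟨h2, _, _⟩
    · rw [h1] at h2
      simp [msk] at h2
    · rw [h1] at h2
      exact cond_msk C h2
  · have hkey : (!keyable 3 G.n G.a x) = true ∨ (keyable 3 G.n G.a x = true ∧
        x ∈ rl G u u (sh (fi j) c) (sh (fi j) c)) := by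
      by_cases hk : keyable 3 G.n G.a x = true
      · right
        refine ⟨hk, ?_⟩
        rcases hx with rfl | ⟨h2, _, _⟩
        · simp [keyable, isSh, lead] at hk
        · exact mem_rl htl h2
      · left
        simpa using hk
    by_cases h : ∃ α β, g3 G.M (sh (fi j) c) (sh (fi (!j)) d) (yy G u) x β α (kap G x) ≠
        (α ^^ ψ false)
    · obtain ⟨α, β, h⟩ := h
      refine D5_j H hu C hd md hE (!keyable 3 G.n G.a x) hkey α β (kap G x) []
        (fun e he => absurd he List.not_mem_nil) (fun X => ge_extra h1 fun e he => ?_) h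
      rcases List.mem_cons.1 he with rfl | he
      · exact hxy
      rcases List.mem_cons.1 he with rfl | he
      · exact hxd
      exact absurd he List.not_mem_nil
    · push Not at h
      refine D5_nj H hu C hd hE (!keyable 3 G.n G.a x) hkey fun X => ?_
      rw [ge_extra h1 fun e he => ?_, h]
      · simp
      · rcases List.mem_cons.1 he with rfl | he
        · exact hxy
        rcases List.mem_cons.1 he with rfl | he
        · exact hxt
        exact absurd he List.not_mem_nil
  · have hxE : sh i d2 ∈ Es G.M (sh (fi j) c) := by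
      rcases hx with h2 | ⟨h2, _, _⟩
      · exact absurd h2 (hsh _ _)
      · exact h2
    rcases eq_fi hi j with rfl | rfl
    · exact absurd hxE (hno d2 hd2)
    by_cases h : ∃ α β δ, g3 G.M (sh (fi j) c) (sh (fi (!j)) d) (yy G u) (sh (fi (!j)) d2) β α δ ≠
        (α ^^ ψ false)
    · obtain ⟨α, β, δ, h⟩ := h
      refine D5_j H hu C hd md hE true (key := []) (Or.inl rfl) α β δ [(sh (fi (!j)) d2, hc δ)]
        (fun e he => ?_) (fun X => ?_) h
      · rw [List.mem_singleton.1 he]
        exact ⟨hxE, δ, rfl⟩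
      · rw [ge_free rfl hd2, look_cons, if_neg (fun h' => hxy h'.symm), look_cons,
          if_neg (fun h' => hxd h'.symm), look_cons, if_pos rfl, hv_hc]
    · push Not at h
      refine D5_nj H hu C hd hE true (key := []) (Or.inl rfl) fun X => ?_
      rw [h]
      simp

/-- The second target. -/
theorem dich2 (H : Hyp G) (hu : u.length = G.n ^ 2) (C : Cond G u j c c' g ψ)
    (h : ¬ (Stat G ∨ (Kin G 1 ∧ Kin G 2))) :
    (∀ d, InI G.n G.τ d → sh (fi (!j)) d ∉ Es G.M (sh (fi j) c)) ∨
    ((∀ d, InI G.n G.τ d → sh (fi j) d ∉ Es G.M (sh (fi j) c)) ∧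
      yy G u ∉ Es G.M (sh (fi j) c)) := by
  by_contra hno
  apply h
  rw [not_or] at hno
  obtain ⟨h1, h2⟩ := hno
  push Not at h1
  obtain ⟨d, hd, md⟩ := h1
  by_cases hy : yy G u ∈ Es G.M (sh (fi j) c)
  · by_cases h3 : ∀ d', InI G.n G.τ d' → sh (fi j) d' ∉ Es G.M (sh (fi j) c)
    · exact Or.inl (ask_one H hu C hy hd md h3)
    · push Not at h3
      obtain ⟨d', hd', md'⟩ := h3
      by_cases hs : Stat G
      · exact Or.inl hs
      · obtain ⟨h4, h5, h6⟩ := ask_two_static H hu C hy hd hd' md md' hs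
        exact Or.inr (ask_two_hard H hu C hd hd' hy md md' h4 h6)
  · obtain ⟨Q⟩ := qf_t H hu C hy
    have h3 : ∃ d', InI G.n G.τ d' ∧ sh (fi j) d' ∈ Es G.M (sh (fi j) c) := by
      by_contra h4
      push Not at h4
      exact h2 ⟨h4, hy⟩
    obtain ⟨d', hd', md'⟩ := h3
    cases j with
    | false => exact two_kinds H hu Q hd' hd md' md (cond_msk C)
    | true => exact two_kinds H hu Q hd hd' md md' (cond_msk C)

end ask

end Pool.Agent.Helper5.BH
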